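import Pool.Agent.Helper57.REC.Stmts1

/-!
# Calculus of `CongPow`, and the value of a character at the Frobenius
-/

set_option autoImplicit false

open NumberField

namespace REC

open Pool.Agent.Helper13.ZL (Pl q HasMean)
open MU (Gal Zb Over CongPow)

namespace H72

section Gen

variable {Ω : Type} [Field Ω]

/-- the image of an algebraic integer -/
theorem ex_img (g : Ω →+* Ω) (x : integralClosure ℤ Ω) :
    ∃ y : integralClosure ℤ Ω, (y : Ω) = g (x : Ω) :=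
  ⟨⟨g (x : Ω), map_isIntegral_int g x.2⟩, rfl⟩

theorem cp_mul (𝔓 : Ideal (integralClosure ℤ Ω)) (a b : ℕ) (σ τ : Ω →+* Ω)
    (h1 : CongPow 𝔓 a σ) (h2 : CongPow 𝔓 b τ) : CongPow 𝔓 (a * b) (fun x => σ (τ x)) := by
  intro x y hxy
  obtain ⟨u, hu⟩ := ex_img τ x
  have hy : (y : Ω) = σ (u : Ω) := by rw [hxy, hu]
  have e1 := h1 u y hy
  have e2 := h2 x u hu
  have e3 : u ^ a - (x ^ b) ^ a ∈ 𝔓 := by
    obtain ⟨c, hc⟩ := sub_dvd_pow_sub_pow u (x ^ b) a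
    rw [hc]
    exact Ideal.mul_mem_right _ _ e2
  have e4 : y - x ^ (a * b) = (y - u ^ a) + (u ^ a - (x ^ b) ^ a) := by
    rw [← pow_mul, mul_comm b a]; ring
  rw [e4]
  exact 𝔓.add_mem e1 e3

theorem cp_one (𝔓 : Ideal (integralClosure ℤ Ω)) : CongPow 𝔓 1 (fun x => x) := by
  intro x y hxy
  have : y = x := Subtype.ext hxy
  rw [this, pow_one, sub_self]
  exact 𝔓.zero_mem

theorem cp_div (p : ℕ) (𝔓 : Ideal (integralClosure ℤ Ω)) (hp : p.Prime) (hP : Over p 𝔓)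
    (k m : ℕ) (σ σ' τ : Ω →+* Ω) (hσ : ∀ x, σ (σ' x) = x) (hkm : k ≤ m)
    (h1 : CongPow 𝔓 (p ^ k) σ) (h2 : CongPow 𝔓 (p ^ m) τ) :
    CongPow 𝔓 (p ^ (m - k)) (fun x => σ' (τ x)) := by
  intro x y hxy
  obtain ⟨u, hu⟩ := ex_img τ x
  have hy : (u : Ω) = σ (y : Ω) := by rw [hxy, hσ, hu]
  have e1 := h1 y u hy
  have e2 := h2 x u hu
  have hprime : 𝔓.IsPrime := hP.1
  have hp0 : ((p : ℕ) : integralClosure ℤ Ω ⧸ 𝔓) = 0 := by
    have := Ideal.Quotient.eq_zero_iff_mem.mpr hP.2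
    rwa [map_natCast] at this
  have : CharP (integralClosure ℤ Ω ⧸ 𝔓) p := (CharP.charP_iff_prime_eq_zero hp).mpr hp0
  have : Fact p.Prime := ⟨hp⟩
  have e3 : (Ideal.Quotient.mk 𝔓 y) ^ (p ^ k)
      = (Ideal.Quotient.mk 𝔓 x ^ (p ^ (m - k))) ^ (p ^ k) := by
    rw [← pow_mul, ← pow_add, Nat.sub_add_cancel hkm, ← map_pow, ← map_pow, Ideal.Quotient.eq]
    have : y ^ p ^ k - x ^ p ^ m = (u - x ^ p ^ m) - (u - y ^ p ^ k) := by ring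
    rw [this]
    exact 𝔓.sub_mem e2 e1
  have e4 : (Ideal.Quotient.mk 𝔓 y - Ideal.Quotient.mk 𝔓 x ^ (p ^ (m - k))) ^ (p ^ k) = 0 := by
    rw [sub_pow_char_pow, e3, sub_self]
  have e5 := (pow_eq_zero_iff (Nat.pow_pos hp.pos : 0 < p ^ k).ne').mp e4
  rw [← map_pow, ← map_sub, Ideal.Quotient.eq_zero_iff_mem] at e5
  exact e5

theorem cp_conj (𝔓 𝔓' : Ideal (integralClosure ℤ Ω)) (g g' : Ω →+* Ω)
    (hgg : ∀ x, g (g' x) = x)
    (hg : ∀ x y : integralClosure ℤ Ω, (y : Ω) = g (x : Ω) → (x ∈ 𝔓 ↔ y ∈ 𝔓')) (a : ℕ)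
    (σ : Ω →+* Ω) (h : CongPow 𝔓 a σ) : CongPow 𝔓' a (fun x => g (σ (g' x))) := by
  intro x y hxy
  obtain ⟨x', hx'⟩ := ex_img g' x
  obtain ⟨y', hy'⟩ := ex_img σ x'
  have e1 := h x' y' hy'
  have hx : (x : Ω) = g (x' : Ω) := by rw [hx', hgg]
  have hy : (y : Ω) = g (y' : Ω) := by rw [hxy, hy', hx']
  refine (hg (y' - x' ^ a) (y - x ^ a) ?_).mp e1
  simp only [Subalgebra.coe_sub, Subalgebra.coe_pow, map_sub, map_pow, hx, hy]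

end Gen

variable {F : Type} [Field F]

theorem congPow_mul (𝔓 : Ideal (Zb F)) (a b : ℕ) (σ τ : Gal F) (h1 : CongPow 𝔓 a σ)
    (h2 : CongPow 𝔓 b τ) : CongPow 𝔓 (a * b) (σ * τ : Gal F) :=
  cp_mul 𝔓 a b (σ : AlgebraicClosure F →+* AlgebraicClosure F)
    (τ : AlgebraicClosure F →+* AlgebraicClosure F) h1 h2

theorem congPow_one (𝔓 : Ideal (Zb F)) : CongPow 𝔓 1 (1 : Gal F) := cp_one 𝔓

theorem congPow_pow (𝔓 : Ideal (Zb F)) (a : ℕ) (σ : Gal F) (h : CongPow 𝔓 a σ) (j : ℕ) :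
    CongPow 𝔓 (a ^ j) (σ ^ j : Gal F) := by
  induction j with
  | zero => rw [pow_zero, pow_zero]; exact congPow_one 𝔓
  | succ j ih => rw [pow_succ, pow_succ]; exact congPow_mul 𝔓 _ _ _ _ ih h

theorem congPow_div (p : ℕ) (𝔓 : Ideal (Zb F)) (hp : p.Prime) (hP : Over p 𝔓) (k m : ℕ)
    (σ τ : Gal F) (hkm : k ≤ m) (h1 : CongPow 𝔓 (p ^ k) σ) (h2 : CongPow 𝔓 (p ^ m) τ) :
    CongPow 𝔓 (p ^ (m - k)) (σ⁻¹ * τ : Gal F) :=
  cp_div p 𝔓 hp hP k m (σ : AlgebraicClosure F →+* AlgebraicClosure F)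
    ((σ⁻¹ : Gal F) : AlgebraicClosure F →+* AlgebraicClosure F)
    (τ : AlgebraicClosure F →+* AlgebraicClosure F)
    (fun x => AlgEquiv.apply_symm_apply σ x) hkm h1 h2

theorem congPow_conj (𝔓 𝔓' : Ideal (Zb F)) (g : Gal F)
    (hg : ∀ x y : Zb F, (y : AlgebraicClosure F) = g (x : AlgebraicClosure F) →
      (x ∈ 𝔓 ↔ y ∈ 𝔓')) (a : ℕ) (σ : Gal F) (h : CongPow 𝔓 a σ) :
    CongPow 𝔓' a (g * σ * g⁻¹ : Gal F) :=
  cp_conj 𝔓 𝔓' (g : AlgebraicClosure F →+* AlgebraicClosure F)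
    ((g⁻¹ : Gal F) : AlgebraicClosure F →+* AlgebraicClosure F)
    (fun x => AlgEquiv.apply_symm_apply g x) hg a
    (σ : AlgebraicClosure F →+* AlgebraicClosure F) h

end H72

open H72

/-- calculus of `CongPow` -/
theorem st_CPW : ST_CPW := by
  intro F _ _ p 𝔓 hp hP
  exact ⟨fun a b σ τ h1 h2 => congPow_mul 𝔓 a b σ τ h1 h2,
    fun k m σ τ hkm h1 h2 => congPow_div p 𝔓 hp hP k m σ τ hkm h1 h2,
    fun g 𝔓' hg a σ h => congPow_conj 𝔓 𝔓' g hg a σ h⟩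

/-- the value at the Frobenius -/
theorem st_FRV (ovp : ST_OVP) (_ : ST_CPW) : ST_FRV := by
  intro F _ _ A _ χ v
  obtain ⟨o1, o2, _, o4, _, o6, _⟩ := ovp F
  obtain ⟨P0, hP0⟩ := o1 v
  obtain ⟨σ0, hσ0⟩ := o2 v P0 hP0
  refine ⟨fun hun => ⟨χ σ0, fun 𝔓 h𝔓 j σ hσ => ?_⟩, fun a ha 𝔓 h𝔓 σ hσ => ?_,
    fun a b ha hb => ?_⟩
  · obtain ⟨g, hg⟩ := o6 v 𝔓 P0 h𝔓 hP0
    have h1 := congPow_conj 𝔓 P0 g hg _ σ hσ
    have h2 := congPow_pow P0 _ σ0 hσ0 j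
    obtain ⟨p, f, hp, _, hq, hov, _⟩ := o4 v P0 hP0
    rw [hq, ← pow_mul] at h1 h2
    have h3 := congPow_div p P0 hp hov (f * j) (f * j) _ _ le_rfl h2 h1
    rw [Nat.sub_self, pow_zero] at h3
    have h4 := hun P0 hP0 _ h3
    rw [map_mul, map_inv, map_pow, map_mul, map_mul, map_inv] at h4
    have h5 : χ g * χ σ * (χ g)⁻¹ = χ σ := by
      rw [mul_comm (χ g) (χ σ), mul_assoc, mul_inv_cancel, mul_one]
    rw [h5] at h4
    exact (inv_mul_eq_one.mp h4).symm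
  · have := ha 𝔓 h𝔓 0 σ (by rw [pow_zero]; exact hσ)
    rw [this, pow_zero]
  · have h1 := ha P0 hP0 1 σ0 (by rw [pow_one]; exact hσ0)
    have h2 := hb P0 hP0 1 σ0 (by rw [pow_one]; exact hσ0)
    rw [pow_one] at h1 h2
    rw [← h1, ← h2]

end REC
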