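import Pool.Agent.Helper85.REC.Stmts10
import Pool.Agent.Helper32.REC.ADK
import Pool.Agent.Helper60.REC.TRP

/-!
# REC.ST_CMP: pairs of commutative motives of rank two   [helper72]
-/

set_option autoImplicit false

open scoped Classical
open NumberField Polynomial

namespace Pool.Agent.Helper72.REC.C2

open _root_.REC MU
open Pool.Agent.Helper60.REC8 Pool.Agent.Helper32.REC

/-! ## Algebra of two by two matrices -/

section alg

variable {R : Type} [CommRing R]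

/-- the equation of Cayley and Hamilton -/
theorem ch2 (s : Matrix (Fin 2) (Fin 2) R) :
    s * s = s.trace • s - s.det • (1 : Matrix (Fin 2) (Fin 2) R) := by
  rw [Matrix.trace_fin_two, Matrix.det_fin_two]
  ext i j
  fin_cases i <;> fin_cases j <;>
    simp [Matrix.mul_apply, Matrix.smul_apply, Matrix.sub_apply] <;> ring

theorem dident (s u : Matrix (Fin 2) (Fin 2) R) (h : u * s = s * u) :
    dsc s • u = (u.trace * (s * s).trace - s.trace * (u * s).trace) •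
        (1 : Matrix (Fin 2) (Fin 2) R) + (2 * (u * s).trace - s.trace * u.trace) • s := by
  have e00 := congrFun (congrFun h 0) 0
  have e01 := congrFun (congrFun h 0) 1
  have e10 := congrFun (congrFun h 1) 0
  simp only [Matrix.mul_apply, Fin.sum_univ_two] at e00 e01 e10
  ext i j
  fin_cases i <;> fin_cases j
  · simp [Matrix.mul_apply, Matrix.trace_fin_two, dsc]
    linear_combination 2 * s 1 0 * e01 + (s 0 0 - s 1 1) * e00
  · simp [Matrix.mul_apply, Matrix.trace_fin_two, dsc]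
    linear_combination (-(s 0 0 - s 1 1)) * e01 + 2 * s 0 1 * e00
  · simp [Matrix.mul_apply, Matrix.trace_fin_two, dsc]
    linear_combination (s 0 0 - s 1 1) * e10 - 2 * s 1 0 * e00
  · simp [Matrix.mul_apply, Matrix.trace_fin_two, dsc]
    linear_combination (-2 * s 1 0) * e01 - (s 0 0 - s 1 1) * e00

theorem dsc_sq (s : Matrix (Fin 2) (Fin 2) R) : dsc (s * s) = s.trace ^ 2 * dsc s := by
  rw [Matrix.trace_fin_two]
  simp only [dsc, Matrix.mul_apply, Fin.sum_univ_two]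
  ring

theorem dsc_smul (c : R) (s : Matrix (Fin 2) (Fin 2) R) : dsc (c • s) = c ^ 2 * dsc s := by
  simp only [dsc, Matrix.smul_apply, smul_eq_mul]
  ring

/-- `s` regular, `u` not regular: then `u s` is regular -/
theorem dsc_mul_ne [IsDomain R] (s u : Matrix (Fin 2) (Fin 2) R) (h : u * s = s * u)
    (hs : dsc s ≠ 0) (hu : dsc u = 0) (hd : u.det ≠ 0) : dsc (u * s) ≠ 0 := by
  have h1 := dident s u h
  obtain ⟨A, hA⟩ : ∃ A, A = u.trace * (s * s).trace - s.trace * (u * s).trace := ⟨_, rfl⟩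
  obtain ⟨B, hB⟩ : ∃ B, B = 2 * (u * s).trace - s.trace * u.trace := ⟨_, rfl⟩
  rw [← hA, ← hB] at h1
  have h2 : dsc (dsc s • u) = B ^ 2 * dsc s := by
    rw [h1, add_comm, dsc_lin]
  rw [dsc_smul, hu, mul_zero] at h2
  have hB0 : B = 0 := by
    have := (mul_eq_zero.mp h2.symm).resolve_right hs
    exact pow_eq_zero_iff two_ne_zero |>.mp this
  rw [hB0, zero_smul, add_zero] at h1
  intro h3
  have h4 : dsc (dsc s • (u * s)) = A ^ 2 * dsc s := by
    rw [← Matrix.smul_mul, h1, Matrix.smul_mul, Matrix.one_mul, dsc_smul]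
  rw [dsc_smul, h3, mul_zero] at h4
  have hA0 : A = 0 := by
    have := (mul_eq_zero.mp h4.symm).resolve_right hs
    exact pow_eq_zero_iff two_ne_zero |>.mp this
  rw [hA0, zero_smul] at h1
  have h5 : u = 0 := by
    ext i j
    have := congrFun (congrFun h1 i) j
    rw [Matrix.smul_apply, smul_eq_mul, Matrix.zero_apply] at this
    exact (mul_eq_zero.mp this).resolve_left hs
  apply hd
  rw [h5, Matrix.det_fin_two]
  simp

/-- the resultant kills the intertwiners -/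
theorem res_smul (s s' u : Matrix (Fin 2) (Fin 2) R) (h : u * s = s' * u) :
    ((s.det - s'.det) ^ 2 - s'.trace * (s.trace - s'.trace) * (s.det - s'.det) +
      (s.trace - s'.trace) ^ 2 * s'.det) • u = 0 := by
  have c1 := ch2 s
  have c2 := ch2 s'
  have h1 : u * (s * s) = s' * s' * u := by
    rw [← Matrix.mul_assoc, h, Matrix.mul_assoc, h, Matrix.mul_assoc]
  rw [c1, c2, Matrix.mul_sub, Matrix.sub_mul, Matrix.mul_smul, Matrix.smul_mul, Matrix.mul_smul,
    Matrix.smul_mul, Matrix.mul_one, Matrix.one_mul, h] at h1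
  -- `(t - t') s' u = (d - d') u`
  have h2 : (s.trace - s'.trace) • (s' * u) = (s.det - s'.det) • u := by
    rw [sub_smul, sub_smul]
    have := h1
    rw [sub_eq_sub_iff_add_eq_add] at this ⊢
    rw [this]
    abel
  have h3 : (s.trace - s'.trace) • (s' * (s' * u)) = (s.det - s'.det) • (s' * u) := by
    rw [← Matrix.mul_smul, h2, Matrix.mul_smul]
  rw [← Matrix.mul_assoc, c2, Matrix.sub_mul, Matrix.smul_mul, Matrix.smul_mul, Matrix.one_mul] at h3
  obtain ⟨X, hX⟩ : ∃ X, X = s' * u := ⟨_, rfl⟩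
  rw [← hX] at h2 h3
  ext i j
  have e2 := congrFun (congrFun h2 i) j
  have e3 := congrFun (congrFun h3 i) j
  simp only [Matrix.smul_apply, Matrix.sub_apply, smul_eq_mul, Matrix.zero_apply] at e2 e3 ⊢
  linear_combination (-(s.det - s'.det) + s'.trace * (s.trace - s'.trace)) * e2 -
    (s.trace - s'.trace) * e3

end alg

/-- pure quadratic polynomials with a common root -/
theorem arith (t d t' d' : ℤ) (q : ℝ)
    (hp : ∀ z : ℂ, z ^ 2 - t * z + d = 0 → ‖z‖ ^ 2 = q)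
    (hR : (d - d') ^ 2 - t' * (t - t') * (d - d') + (t - t') ^ 2 * d' = 0) :
    (t - t') * (t ^ 2 * (t ^ 2 - 4 * d)) = 0 := by
  by_cases htt : t = t'
  · rw [htt, sub_self, zero_mul]
  have ht0 : ((t : ℝ) - t') ≠ 0 := by
    rw [sub_ne_zero]
    exact_mod_cast htt
  obtain ⟨α, hα⟩ : ∃ α : ℝ, α = ((d : ℝ) - d') / (t - t') := ⟨_, rfl⟩
  have hα1 : α * ((t : ℝ) - t') = d - d' := by
    rw [hα, div_mul_cancel₀ _ ht0]
  have hR' : ((d : ℝ) - d') ^ 2 - t' * (t - t') * (d - d') + (t - t') ^ 2 * d' = 0 := by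
    exact_mod_cast hR
  have h1 : α ^ 2 - t * α + d = 0 := by
    have h2 : ((t : ℝ) - t') ^ 2 * (α ^ 2 - t * α + d) = 0 := by
      rw [← hα1] at hR'
      have hd : (d : ℝ) = d' + α * (t - t') := by linear_combination -hα1
      rw [hd]
      linear_combination hR'
    exact (mul_eq_zero.mp h2).resolve_left (pow_ne_zero 2 ht0)
  have h1' : (t - α) ^ 2 - t * (t - α) + d = 0 := by linear_combination h1
  have k1 := hp (α : ℂ) (by exact_mod_cast h1)
  have k2 := hp ((t - α : ℝ) : ℂ) (by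
    have := congrArg (fun x : ℝ => (x : ℂ)) h1'
    push_cast at this ⊢
    exact this)
  rw [Complex.norm_real, Real.norm_eq_abs, sq_abs] at k1 k2
  have k3 : t * (t - 2 * α) = 0 := by linear_combination k2 - k1
  have k4 : ((t : ℝ) - t') * (t ^ 2 * (t ^ 2 - 4 * d)) = 0 := by
    rcases mul_eq_zero.mp k3 with h5 | h5
    · rw [h5]
      ring
    · have h6 : (t : ℝ) ^ 2 - 4 * d = 0 := by
        have : (t : ℝ) = 2 * α := by linear_combination h5
        rw [this] at h1 ⊢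
        linear_combination -4 * h1
      rw [h6]
      ring
  exact_mod_cast k4

/-! ## Density of the Frobenius powers -/

theorem dens (hFRB : ST_FRB) {F : Type} [Field F] [NumberField F] (S : Finset ℕ)
    (C : Set (Gal F)) (hC : IsClosed C)
    (hfr : ∀ (p : ℕ) (𝔓 : Ideal (Zb F)) (k : ℕ) (σ : Gal F), p.Prime → p ∉ S → Over p 𝔓 → 1 ≤ k →
      CongPow 𝔓 (p ^ k) σ → σ⁻¹ ∈ C) (g : Gal F) : g ∈ C := by
  by_contra hne
  set V : Set (Gal F) := (fun σ => g * σ) ⁻¹' Cᶜ with hV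
  have hVo : IsOpen V := IsOpen.preimage (continuous_const.mul continuous_id) hC.isOpen_compl
  have hV1 : (1 : Gal F) ∈ V := by
    rw [hV, Set.mem_preimage, mul_one]
    exact hne
  obtain ⟨Y, hYn, hYo, hYV⟩ := exists_openNormal F V hVo hV1
  obtain ⟨p, 𝔓, k, φ, hp, hpS, hover, hk, hcong, hφ⟩ := hFRB F Y hYn hYo S g⁻¹
  rw [inv_inv] at hφ
  have h1 : g⁻¹ * φ⁻¹ ∈ Y := by
    have h2 : φ⁻¹ * g⁻¹ ∈ Y := by
      have := Y.inv_mem hφ
      rwa [mul_inv_rev] at this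
    exact (hYn.mem_comm_iff).mp h2
  have h2 := hYV h1
  rw [hV, Set.mem_preimage] at h2
  have h3 : g * (g⁻¹ * φ⁻¹) = φ⁻¹ := by group
  rw [h3] at h2
  exact h2 (hfr p 𝔓 k φ hp hpS hover hk hcong)

/-- an integer divisible by infinitely many primes -/
theorem int_zero (z : ℤ) (h : ∀ c : ℕ, ∃ l : ℕ, c < l ∧ (l : ℤ) ∣ z) : z = 0 := by
  by_contra hz
  obtain ⟨l, hl, hd⟩ := h z.natAbs
  have h10 : l ≤ z.natAbs := Nat.le_of_dvd (Int.natAbs_pos.mpr hz) (Int.natCast_dvd.mp hd)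
  omega

section mot

variable {F : Type} [Field F] [NumberField F] {S : Finset ℕ} {w : ℕ}

theorem cont_mat {n : ℕ} {h : Fin n → ℕ} (M : Mot F S n w h) (l : ℕ) [Fact l.Prime] :
    Continuous fun g : Gal F => (M.ρ l g : Matrix (Fin n) (Fin n) ℤ_[l]) :=
  Units.continuous_val.comp (M.continuous l)

theorem cont_tr {n : ℕ} {h : Fin n → ℕ} (M : Mot F S n w h) (l : ℕ) [Fact l.Prime] :
    Continuous fun g : Gal F => (M.ρ l g : Matrix (Fin n) (Fin n) ℤ_[l]).trace :=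
  (cont_mat M l).matrix_trace

theorem cont_dsc {h : Fin 2 → ℕ} (M : Mot F S 2 w h) (l : ℕ) [Fact l.Prime] :
    Continuous fun g : Gal F => dsc (M.ρ l g : Matrix (Fin 2) (Fin 2) ℤ_[l]) := by
  simp_rw [dsc_eq]
  exact ((cont_tr M l).pow 2).sub (continuous_const.mul (cont_mat M l).matrix_det)

/-- integral traces and determinants at the Frobenius powers -/
theorem frob2 {h : Fin 2 → ℕ} (M : Mot F S 2 w h) (p : ℕ) (hp : p.Prime) (hpS : p ∉ S)
    (𝔓 : Ideal (Zb F)) (hov : Over p 𝔓) (k : ℕ) (hk : 1 ≤ k) (σ : Gal F)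
    (hσ : CongPow 𝔓 (p ^ k) σ) :
    ∃ t d : ℤ, (∀ z : ℂ, z ^ 2 - t * z + d = 0 → ‖z‖ ^ 2 = (p : ℝ) ^ (k * w)) ∧
      ∀ (l : ℕ) [Fact l.Prime], l ≠ p →
        (M.ρ l σ⁻¹ : Matrix (Fin 2) (Fin 2) ℤ_[l]).trace = t ∧
        (M.ρ l σ⁻¹ : Matrix (Fin 2) (Fin 2) ℤ_[l]).det = d := by
  obtain ⟨P, hP1, hP2⟩ := M.pure p hp hpS 𝔓 hov k σ hk hσ
  have key : ∀ (l : ℕ) [Fact l.Prime], l ≠ p →
      (M.ρ l σ⁻¹ : Matrix (Fin 2) (Fin 2) ℤ_[l]).trace = ((-P.coeff 1 : ℤ) : ℤ_[l]) ∧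
      (M.ρ l σ⁻¹ : Matrix (Fin 2) (Fin 2) ℤ_[l]).det = ((P.coeff 0 : ℤ) : ℤ_[l]) := by
    intro l _ hl
    have h1 := hP2 l hl
    obtain ⟨A, hA⟩ : ∃ A : Matrix (Fin 2) (Fin 2) ℤ_[l],
      A = (M.ρ l σ⁻¹ : Matrix (Fin 2) (Fin 2) ℤ_[l]) := ⟨_, rfl⟩
    have h2 := Matrix.charpoly_fin_two A
    rw [← hA] at h1 ⊢
    rw [h1] at h2
    have c0 := congrArg (fun f => coeff f 0) h2
    have c1 := congrArg (fun f => coeff f 1) h2
    simp [coeff_X, coeff_C] at c0 c1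
    constructor
    · push_cast
      linear_combination c1
    · exact c0.symm
  refine ⟨-P.coeff 1, P.coeff 0, ?_, key⟩
  intro z hz
  apply hP1
  -- `P` is monic of degree two
  obtain ⟨l, hlp, hl⟩ := Nat.exists_infinite_primes (p + 1)
  have : Fact l.Prime := ⟨hl⟩
  have hne : l ≠ p := by omega
  have h1 := hP2 l hne
  have h2 := Matrix.charpoly_fin_two (M.ρ l σ⁻¹ : Matrix (Fin 2) (Fin 2) ℤ_[l])
  rw [h1, (key l hne).1, (key l hne).2] at h2
  have h3 : P = Polynomial.X ^ 2 - C (-P.coeff 1) * Polynomial.X + C (P.coeff 0) := by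
    apply Polynomial.map_injective (Int.castRingHom ℤ_[l]) (RingHom.injective_int _)
    rw [h2]
    simp
  rw [IsRoot.def, h3]
  simp only [Polynomial.map_add, Polynomial.map_sub, Polynomial.map_mul, Polynomial.map_pow,
    Polynomial.map_X, Polynomial.map_C, eval_add, eval_sub, eval_mul, eval_pow, eval_X, eval_C]
  exact hz

theorem res_eq {n l : ℕ} [Fact l.Prime] {h : Fin n → ℕ} (M : Mot F S n w h) (g : Gal F) :
    res (M.ρ l) g = (M.ρ l g : Matrix (Fin n) (Fin n) ℤ_[l]).map (PadicInt.toZMod (p := l)) := rfl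

theorem res_tr {n l : ℕ} [Fact l.Prime] {h : Fin n → ℕ} (M : Mot F S n w h) (g : Gal F) :
    (res (M.ρ l) g).trace = PadicInt.toZMod (M.ρ l g : Matrix (Fin n) (Fin n) ℤ_[l]).trace := by
  rw [res_eq]
  simp only [Matrix.trace, Matrix.diag, Matrix.map_apply, map_sum]

theorem res_det {n l : ℕ} [Fact l.Prime] {h : Fin n → ℕ} (M : Mot F S n w h) (g : Gal F) :
    (res (M.ρ l) g).det = PadicInt.toZMod (M.ρ l g : Matrix (Fin n) (Fin n) ℤ_[l]).det := by
  rw [res_eq, RingHom.map_det]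
  rfl

/-- nonzero residual intertwiners for infinitely many `l`: the traces at `2` agree -/
theorem caseB (hFRB : ST_FRB) {h h' : Fin 2 → ℕ} (M : Mot F S 2 w h) (M' : Mot F S 2 w h')
    (hcomm : ∀ (l : ℕ) [Fact l.Prime] (g g' : Gal F), M.ρ l g * M.ρ l g' = M.ρ l g' * M.ρ l g)
    (hreg : ∃ g : Gal F, ((M.ρ 2 g : Matrix (Fin 2) (Fin 2) ℤ_[2]) ^ 4).trace ^ 2 ≠
      4 * ((M.ρ 2 g : Matrix (Fin 2) (Fin 2) ℤ_[2]) ^ 4).det)
    (hinf : ∀ c : ℕ, ∃ (l : ℕ) (_ : Fact l.Prime), c < l ∧ ∃ u : Matrix (Fin 2) (Fin 2) (ZMod l),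
      u ≠ 0 ∧ ∀ g, u * res (M.ρ l) g = res (M'.ρ l) g * u) (g : Gal F) :
    (M.ρ 2 g : Matrix (Fin 2) (Fin 2) ℤ_[2]).trace =
      (M'.ρ 2 g : Matrix (Fin 2) (Fin 2) ℤ_[2]).trace := by
  -- Frobenius powers
  have hfr : ∀ (p : ℕ) (𝔓 : Ideal (Zb F)) (k : ℕ) (σ : Gal F), p.Prime → p ∉ insert 2 S →
      Over p 𝔓 → 1 ≤ k → CongPow 𝔓 (p ^ k) σ →
      σ⁻¹ ∈ {g : Gal F | ((M.ρ 2 g : Matrix (Fin 2) (Fin 2) ℤ_[2]).trace -
        (M'.ρ 2 g : Matrix (Fin 2) (Fin 2) ℤ_[2]).trace) *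
        ((M.ρ 2 g : Matrix (Fin 2) (Fin 2) ℤ_[2]).trace ^ 2 *
          dsc (M.ρ 2 g : Matrix (Fin 2) (Fin 2) ℤ_[2])) = 0} := by
    intro p 𝔓 k σ hp hpS hov hk hσ
    rw [Finset.mem_insert, not_or] at hpS
    obtain ⟨t, d, hpu, htd⟩ := frob2 M p hp hpS.2 𝔓 hov k hk σ hσ
    obtain ⟨t', d', -, htd'⟩ := frob2 M' p hp hpS.2 𝔓 hov k hk σ hσ
    have hR : (d - d') ^ 2 - t' * (t - t') * (d - d') + (t - t') ^ 2 * d' = 0 := by
      apply int_zero
      intro c
      obtain ⟨l, hl, hcl, u, hu0, hu⟩ := hinf (max c p)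
      refine ⟨l, (le_max_left _ _).trans_lt hcl, ?_⟩
      have hlp : l ≠ p := by
        have := (le_max_right c p).trans_lt hcl
        omega
      have h1 := res_smul _ _ _ (hu σ⁻¹)
      rw [res_tr, res_tr, res_det, res_det, (htd l hlp).1, (htd l hlp).2, (htd' l hlp).1,
        (htd' l hlp).2, map_intCast, map_intCast, map_intCast, map_intCast] at h1
      have h2 := (smul_eq_zero.mp h1).resolve_right hu0
      rw [← ZMod.intCast_zmod_eq_zero_iff_dvd]
      push_cast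
      exact h2
    have h1 := arith t d t' d' _ hpu hR
    have : Fact (Nat.Prime 2) := ⟨Nat.prime_two⟩
    rw [Set.mem_ofPred_eq, dsc_eq, (htd 2 (Ne.symm hpS.1)).1, (htd 2 (Ne.symm hpS.1)).2,
      (htd' 2 (Ne.symm hpS.1)).1]
    exact_mod_cast h1
  have hall := dens hFRB (insert 2 S) _ (isClosed_eq
    (((cont_tr M 2).sub (cont_tr M' 2)).mul (((cont_tr M 2).pow 2).mul (cont_dsc M 2)))
    continuous_const) hfr
  -- the statement for squares
  have hall' : ∀ g : Gal F, dsc ((M.ρ 2 g : Matrix (Fin 2) (Fin 2) ℤ_[2]) *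
      (M.ρ 2 g : Matrix (Fin 2) (Fin 2) ℤ_[2])) ≠ 0 →
      (M.ρ 2 g : Matrix (Fin 2) (Fin 2) ℤ_[2]).trace =
        (M'.ρ 2 g : Matrix (Fin 2) (Fin 2) ℤ_[2]).trace := by
    intro g hg
    rw [dsc_sq] at hg
    have := (mul_eq_zero.mp (hall g)).resolve_right hg
    exact sub_eq_zero.mp this
  obtain ⟨g₀, hg₀⟩ := hreg
  obtain ⟨s, hs⟩ : ∃ s, s = (M.ρ 2 g₀ : Matrix (Fin 2) (Fin 2) ℤ_[2]) := ⟨_, rfl⟩
  obtain ⟨s', hs'⟩ : ∃ s', s' = (M'.ρ 2 g₀ : Matrix (Fin 2) (Fin 2) ℤ_[2]) := ⟨_, rfl⟩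
  have hmulM : ∀ a b : Gal F, (M.ρ 2 (a * b) : Matrix (Fin 2) (Fin 2) ℤ_[2]) =
      (M.ρ 2 a : Matrix (Fin 2) (Fin 2) ℤ_[2]) * (M.ρ 2 b : Matrix (Fin 2) (Fin 2) ℤ_[2]) := by
    intro a b
    rw [map_mul, Units.val_mul]
  have hmulM' : ∀ a b : Gal F, (M'.ρ 2 (a * b) : Matrix (Fin 2) (Fin 2) ℤ_[2]) =
      (M'.ρ 2 a : Matrix (Fin 2) (Fin 2) ℤ_[2]) * (M'.ρ 2 b : Matrix (Fin 2) (Fin 2) ℤ_[2]) := by
    intro a b
    rw [map_mul, Units.val_mul]
  have h4 : dsc ((s * s) * (s * s)) ≠ 0 := by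
    rw [dsc_eq, sub_ne_zero]
    have e : (s * s) * (s * s) = s ^ 4 := by
      simp only [pow_succ, pow_zero, one_mul, Matrix.mul_assoc]
    rw [e, hs]
    exact hg₀
  have h2 : dsc (s * s) ≠ 0 := by
    intro h5
    apply h4
    rw [dsc_sq, h5, mul_zero]
  -- traces at `g₀` and `g₀ ^ 2`
  have t1 : s.trace = s'.trace := by
    rw [hs, hs']
    apply hall'
    rw [← hs]
    exact h2
  have t2 : (s * s).trace = (s' * s').trace := by
    rw [hs, hs', ← hmulM, ← hmulM']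
    apply hall'
    rw [hmulM, ← hs]
    exact h4
  have hd : s.det = s'.det := by
    have h20 : (2 : ℤ_[2]) ≠ 0 := two_ne_zero
    apply mul_left_cancel₀ h20
    rw [det_of_tr, det_of_tr, t1, t2]
  have hdu : ∀ a : Gal F, IsUnit (M.ρ 2 a : Matrix (Fin 2) (Fin 2) ℤ_[2]).det := fun a =>
    (Matrix.isUnit_iff_isUnit_det _).mp (M.ρ 2 a).isUnit
  -- all `g`
  by_cases hg : dsc ((M.ρ 2 g : Matrix (Fin 2) (Fin 2) ℤ_[2]) *
      (M.ρ 2 g : Matrix (Fin 2) (Fin 2) ℤ_[2])) = 0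
  swap
  · exact hall' g hg
  obtain ⟨y, hy⟩ : ∃ y, y = (M.ρ 2 g : Matrix (Fin 2) (Fin 2) ℤ_[2]) := ⟨_, rfl⟩
  obtain ⟨y', hy'⟩ : ∃ y', y' = (M'.ρ 2 g : Matrix (Fin 2) (Fin 2) ℤ_[2]) := ⟨_, rfl⟩
  have hsy : s * y = y * s := by
    rw [hs, hy, ← Units.val_mul, ← Units.val_mul, hcomm]
  have hyd : (y * y).det ≠ 0 := by
    rw [Matrix.det_mul, hy]
    exact ((hdu g).mul (hdu g)).ne_zero
  rw [← hy] at hg
  have hc1 : (y * y) * (s * s) = (s * s) * (y * y) := by
    have : Commute y s := hsy.symm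
    exact ((this.mul_left this).mul_right (this.mul_left this)).eq
  have hc2 : (y * y) * ((s * s) * (s * s)) = ((s * s) * (s * s)) * (y * y) := by
    have : Commute (y * y) (s * s) := hc1
    exact (this.mul_right this).eq
  have k1 := dsc_mul_ne (s * s) (y * y) hc1 h2 hg hyd
  have k2 := dsc_mul_ne ((s * s) * (s * s)) (y * y) hc2 h4 hg hyd
  have m1 : (s * y).trace = (s' * y').trace := by
    rw [hs, hy, hs', hy', ← hmulM, ← hmulM']
    apply hall'
    rw [hmulM, ← hs, ← hy]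
    have e : s * y * (s * y) = y * y * (s * s) := by
      have hc : Commute s y := hsy
      calc s * y * (s * y) = s * (y * s) * y := by simp only [Matrix.mul_assoc]
        _ = s * (s * y) * y := by rw [hsy]
        _ = s * s * (y * y) := by simp only [Matrix.mul_assoc]
        _ = y * y * (s * s) := hc1.symm
    rw [e]
    exact k1
  have m2 : (s * (s * y)).trace = (s' * (s' * y')).trace := by
    rw [hs, hy, hs', hy', ← hmulM, ← hmulM', ← hmulM, ← hmulM']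
    apply hall'
    rw [hmulM, hmulM, ← hs, ← hy]
    have e : s * (s * y) * (s * (s * y)) = y * y * ((s * s) * (s * s)) := by
      have hc : Commute (s * s) y := by
        have h0 : Commute s y := hsy
        exact h0.mul_left h0
      calc s * (s * y) * (s * (s * y)) = (s * s) * (y * (s * s)) * y := by
            simp only [Matrix.mul_assoc]
        _ = (s * s) * ((s * s) * y) * y := by rw [hc.eq]
        _ = (s * s) * (s * s) * (y * y) := by simp only [Matrix.mul_assoc]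
        _ = y * y * ((s * s) * (s * s)) := hc2.symm
    rw [e]
    exact k2
  -- the recursion
  have r1 : (s * (s * y)).trace = s.trace * (s * y).trace - s.det * y.trace := by
    rw [← Matrix.mul_assoc, ch2 s, Matrix.sub_mul, Matrix.smul_mul, Matrix.smul_mul,
      Matrix.one_mul, Matrix.trace_sub, Matrix.trace_smul, Matrix.trace_smul, smul_eq_mul,
      smul_eq_mul]
  have r2 : (s' * (s' * y')).trace = s'.trace * (s' * y').trace - s'.det * y'.trace := by
    rw [← Matrix.mul_assoc, ch2 s', Matrix.sub_mul, Matrix.smul_mul, Matrix.smul_mul,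
      Matrix.one_mul, Matrix.trace_sub, Matrix.trace_smul, Matrix.trace_smul, smul_eq_mul,
      smul_eq_mul]
  have hsd : s.det ≠ 0 := by
    rw [hs]
    exact (hdu g₀).ne_zero
  rw [← hy, ← hy']
  apply mul_left_cancel₀ hsd
  rw [m2, r2, m1, ← t1, ← hd] at r1
  linear_combination r1

/-- transfer of the equality of traces -/
theorem tr_all (hFRB : ST_FRB) {h h' : Fin 2 → ℕ} (M : Mot F S 2 w h) (M' : Mot F S 2 w h')
    (h2 : ∀ g : Gal F, (M.ρ 2 g : Matrix (Fin 2) (Fin 2) ℤ_[2]).trace =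
      (M'.ρ 2 g : Matrix (Fin 2) (Fin 2) ℤ_[2]).trace) (l : ℕ) [Fact l.Prime] (g : Gal F) :
    (M.ρ l g : Matrix (Fin 2) (Fin 2) ℤ_[l]).trace =
      (M'.ρ l g : Matrix (Fin 2) (Fin 2) ℤ_[l]).trace := by
  refine dens hFRB (insert l (insert 2 S)) {g : Gal F | (M.ρ l g : Matrix (Fin 2) (Fin 2)
    ℤ_[l]).trace = (M'.ρ l g : Matrix (Fin 2) (Fin 2) ℤ_[l]).trace}
    (isClosed_eq (cont_tr M l) (cont_tr M' l)) ?_ g
  intro p 𝔓 k σ hp hpS hov hk hσ
  rw [Finset.mem_insert, Finset.mem_insert, not_or, not_or] at hpS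
  obtain ⟨t, d, -, htd⟩ := frob2 M p hp hpS.2.2 𝔓 hov k hk σ hσ
  obtain ⟨t', d', -, htd'⟩ := frob2 M' p hp hpS.2.2 𝔓 hov k hk σ hσ
  have h3 := h2 σ⁻¹
  rw [(htd 2 (Ne.symm hpS.2.1)).1, (htd' 2 (Ne.symm hpS.2.1)).1] at h3
  have h4 : t = t' := by exact_mod_cast h3
  rw [Set.mem_ofPred_eq, (htd l (Ne.symm hpS.1)).1, (htd' l (Ne.symm hpS.1)).1, h4]

theorem isUnit_int {l : ℕ} [Fact l.Prime] (D : ℤ) (hD : D ≠ 0) (hl : D.natAbs < l) :
    IsUnit (D : ℤ_[l]) := by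
  rw [PadicInt.isUnit_iff]
  by_contra h7
  have h8 : ‖(D : ℤ_[l])‖ < 1 := lt_of_le_of_ne (PadicInt.norm_le_one _) h7
  have h9 := (PadicInt.norm_int_lt_one_iff_dvd D).mp h8
  have h10 := Int.natAbs_dvd_natAbs.mpr h9
  rw [Int.natAbs_natCast] at h10
  have h11 := Nat.le_of_dvd (Int.natAbs_pos.mpr hD) h10
  omega

/-! ## Complete reducibility -/

theorem le_of_inv {K : Type} [Field K] {n m : ℕ} (C : Matrix (Fin m) (Fin n) K)
    (B : Matrix (Fin n) (Fin m) K) (h : C * B = 1) : m ≤ n := by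
  have h1 : Function.Injective B.mulVecLin := by
    intro x y hxy
    have h2 := congrArg C.mulVec hxy
    rw [Matrix.mulVecLin_apply, Matrix.mulVecLin_apply, Matrix.mulVec_mulVec,
      Matrix.mulVec_mulVec, h, Matrix.one_mulVec, Matrix.one_mulVec] at h2
    exact h2
  have h2 := LinearMap.finrank_le_finrank_of_injective h1
  rwa [Module.finrank_fin_fun, Module.finrank_fin_fun] at h2

/-- a commutative representation of rank two with a regular element is completely reducible -/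
theorem ss_comm {G K : Type} [Group G] [Field K] (r : G →* Matrix (Fin 2) (Fin 2) K)
    (hc : ∀ g g', r g * r g' = r g' * r g) (g₀ : G) (hg₀ : dsc (r g₀) ≠ 0) : IsSS r := by
  intro m B A hBA
  obtain ⟨⟨C, hC⟩, hA⟩ := hBA
  have hm := le_of_inv C B hC
  interval_cases m
  · exact ⟨0, Subsingleton.elim _ _, fun g => Subsingleton.elim _ _⟩
  · obtain ⟨s, hs⟩ : ∃ s, s = r g₀ := ⟨_, rfl⟩
    obtain ⟨a, ha⟩ : ∃ a, a = A g₀ 0 0 := ⟨_, rfl⟩
    have hsB := hA g₀
    rw [← hs] at hsB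
    have e0 := congrFun (congrFun hsB 0) 0
    have e1 := congrFun (congrFun hsB 1) 0
    have eC := congrFun (congrFun hC 0) 0
    simp only [Matrix.mul_apply, Fin.sum_univ_two, Finset.univ_unique, Fin.default_eq_zero,
      Fin.isValue, Finset.sum_singleton, Matrix.one_apply_eq, ← ha] at e0 e1 eC
    -- the discriminant
    have hq : a ^ 2 - s.trace * a + s.det = 0 := by
      rw [Matrix.trace_fin_two, Matrix.det_fin_two]
      have q0 : (a ^ 2 - (s 0 0 + s 1 1) * a + (s 0 0 * s 1 1 - s 0 1 * s 1 0)) * B 0 0 = 0 := by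
        linear_combination (-a + s 1 1) * e0 - s 0 1 * e1
      have q1 : (a ^ 2 - (s 0 0 + s 1 1) * a + (s 0 0 * s 1 1 - s 0 1 * s 1 0)) * B 1 0 = 0 := by
        linear_combination (-a + s 0 0) * e1 - s 1 0 * e0
      linear_combination (-(a ^ 2 - (s 0 0 + s 1 1) * a + (s 0 0 * s 1 1 - s 0 1 * s 1 0))) * eC +
        C 0 0 * q0 + C 0 1 * q1
    have hdd : dsc s = (2 * a - s.trace) ^ 2 := by
      rw [dsc_eq]
      linear_combination -4 * hq
    have hne : 2 * a - s.trace ≠ 0 := by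
      intro h0
      rw [hs.symm, hdd, h0] at hg₀
      exact hg₀ (by ring)
    obtain ⟨E, hE⟩ : ∃ E : Matrix (Fin 2) (Fin 2) K,
      E = s - (s.trace - a) • (1 : Matrix (Fin 2) (Fin 2) K) := ⟨_, rfl⟩
    have hEB : E * B = (2 * a - s.trace) • B := by
      have hBa : B * A g₀ = a • B := by
        ext i j
        have hj : j = 0 := Subsingleton.elim _ _
        subst hj
        simp only [Matrix.mul_apply, Finset.univ_unique, Fin.default_eq_zero, Fin.isValue,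
          Finset.sum_singleton, ← ha, Matrix.smul_apply, smul_eq_mul]
        ring
      rw [hE, Matrix.sub_mul, hsB, hBa, Matrix.smul_mul, Matrix.one_mul, ← sub_smul]
      congr 1
      ring
    have hEc : ∀ g, E * r g = r g * E := by
      intro g
      rw [hE, Matrix.sub_mul, Matrix.mul_sub, hs, hc, Matrix.smul_mul, Matrix.mul_smul,
        Matrix.one_mul, Matrix.mul_one]
    -- rows which kill `B` kill `E`
    have hkill : ∀ x : Matrix (Fin 1) (Fin 2) K, x * B = 0 → x * E = 0 := by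
      intro x hx
      have hx0 := congrFun (congrFun hx 0) 0
      simp only [Matrix.mul_apply, Fin.sum_univ_two, Matrix.zero_apply] at hx0
      have E00 : E 0 0 = a - s 1 1 := by
        rw [hE, Matrix.trace_fin_two]
        simp
        ring
      have E01 : E 0 1 = s 0 1 := by
        rw [hE]
        simp
      have E10 : E 1 0 = s 1 0 := by
        rw [hE]
        simp
      have E11 : E 1 1 = a - s 0 0 := by
        rw [hE, Matrix.trace_fin_two]
        simp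
        ring
      have w0 : B 0 0 * E 1 0 - B 1 0 * E 0 0 = 0 := by
        rw [E10, E00]
        linear_combination e1
      have w1 : B 0 0 * E 1 1 - B 1 0 * E 0 1 = 0 := by
        rw [E11, E01]
        linear_combination -e0
      ext i j
      have hi : i = 0 := Subsingleton.elim _ _
      subst hi
      simp only [Matrix.mul_apply, Fin.sum_univ_two, Matrix.zero_apply]
      have key : ∀ (E0 E1 : K), B 0 0 * E1 - B 1 0 * E0 = 0 → x 0 0 * E0 + x 0 1 * E1 = 0 := by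
        intro E0 E1 hw
        have y0 : B 0 0 * (x 0 0 * E0 + x 0 1 * E1) = 0 := by
          linear_combination E0 * hx0 + x 0 1 * hw
        have y1 : B 1 0 * (x 0 0 * E0 + x 0 1 * E1) = 0 := by
          linear_combination E1 * hx0 - x 0 0 * hw
        linear_combination (-(x 0 0 * E0 + x 0 1 * E1)) * eC + C 0 0 * y0 + C 0 1 * y1
      fin_cases j
      · exact key _ _ w0
      · exact key _ _ w1
    refine ⟨(2 * a - s.trace)⁻¹ • (C * E), ?_, ?_⟩
    · rw [Matrix.smul_mul, Matrix.mul_assoc, hEB, Matrix.mul_smul, hC, smul_smul,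
        inv_mul_cancel₀ hne, one_smul]
    · intro g
      rw [Matrix.smul_mul, Matrix.mul_smul]
      congr 1
      rw [Matrix.mul_assoc, hEc, ← Matrix.mul_assoc, ← Matrix.mul_assoc, ← sub_eq_zero,
        ← Matrix.sub_mul]
      apply hkill
      rw [Matrix.sub_mul, Matrix.mul_assoc, hA, ← Matrix.mul_assoc, hC, Matrix.mul_assoc, hC,
        Matrix.one_mul, Matrix.mul_one, sub_self]
  · refine ⟨C, hC, fun g => ?_⟩
    have hBC : B * C = 1 := mul_eq_one_comm.mp hC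
    calc C * r g = C * (r g * B) * C := by
          rw [Matrix.mul_assoc, Matrix.mul_assoc, hBC, Matrix.mul_one]
      _ = A g * C := by rw [hA, ← Matrix.mul_assoc, hC, Matrix.one_mul]

theorem ssr (hFRB : ST_FRB) {h : Fin 2 → ℕ} (M : Mot F S 2 w h) (hM : Cmr M) : SSr M := by
  obtain ⟨-, hss, hcomm, hreg⟩ := hM
  refine ⟨hss, ?_⟩
  have : Fact (Nat.Prime 2) := ⟨Nat.prime_two⟩
  obtain ⟨g, hg⟩ := hreg 1 one_pos 2
  obtain ⟨p, D, τ, hp, hD0, hD⟩ := good_frob hFRB M ⟨2, this, g, by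
    rw [dsc_eq, sub_ne_zero]
    rwa [pow_one] at hg⟩
  refine ⟨p + D.natAbs, fun l _ hl => ?_⟩
  refine ss_comm _ ?_ τ ?_
  · intro g g'
    rw [← map_mul]
    have : M.ρ l (g * g') = M.ρ l (g' * g) := by rw [map_mul, map_mul, hcomm]
    rw [res_eq, this, ← res_eq, map_mul]
  · rw [dsc_eq, res_tr, res_det, ← map_pow]
    have h4 : (4 : ZMod l) = PadicInt.toZMod (4 : ℤ_[l]) := by
      rw [map_ofNat]
    rw [h4, ← map_mul, ← map_sub, ← dsc_eq, hD l (by omega)]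
    exact ((isUnit_int D hD0 (by omega)).map _).ne_zero

/-- the liftings when the traces agree -/
theorem caseA (hFRB : ST_FRB) (hMAT : ST_MAT) {h h' : Fin 2 → ℕ} (M : Mot F S 2 w h)
    (M' : Mot F S 2 w h') (hM : Cmr M) (hM' : Cmr M')
    (h2 : ∀ g : Gal F, (M.ρ 2 g : Matrix (Fin 2) (Fin 2) ℤ_[2]).trace =
      (M'.ρ 2 g : Matrix (Fin 2) (Fin 2) ℤ_[2]).trace) : HLp M M' := by
  obtain ⟨-, hss, hcomm, hreg⟩ := hM
  obtain ⟨-, hss', hcomm', hreg'⟩ := hM'
  have : Fact (Nat.Prime 2) := ⟨Nat.prime_two⟩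
  obtain ⟨g₁, hg₁⟩ := hreg 1 one_pos 2
  obtain ⟨p, D, τ, hp, hD0, hD⟩ := good_frob hFRB M ⟨2, this, g₁, by
    rw [dsc_eq, sub_ne_zero]
    rwa [pow_one] at hg₁⟩
  refine ⟨p + D.natAbs, fun l _ hl u hu => ?_⟩
  have htr := tr_all hFRB M M' h2 l
  have hdt : ∀ g : Gal F, (M.ρ l g : Matrix (Fin 2) (Fin 2) ℤ_[l]).det =
      (M'.ρ l g : Matrix (Fin 2) (Fin 2) ℤ_[l]).det := by
    intro g
    have h2 : (2 : ℤ_[l]) ≠ 0 := two_ne_zero
    apply mul_left_cancel₀ h2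
    rw [det_of_tr, det_of_tr, htr g, ← Units.val_mul, ← Units.val_mul, ← map_mul,
      ← map_mul, htr (g * g)]
  have hDu : IsUnit (D : ℤ_[l]) := isUnit_int D hD0 (by omega)
  have hDl := hD l (by omega)
  obtain ⟨s, hs⟩ : ∃ s, s = (M.ρ l τ : Matrix (Fin 2) (Fin 2) ℤ_[l]) := ⟨_, rfl⟩
  obtain ⟨s', hs'⟩ : ∃ s', s' = (M'.ρ l τ : Matrix (Fin 2) (Fin 2) ℤ_[l]) := ⟨_, rfl⟩
  have hst : s.trace = s'.trace := by rw [hs, hs', htr]
  have hsd : s.det = s'.det := by rw [hs, hs', hdt]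
  have hsD : dsc s = D := by rw [hs, hDl]
  have hsD' : dsc s' = D := by rw [dsc_eq, ← hst, ← hsd, ← dsc_eq, hsD]
  have hsD2 : s.trace ^ 2 - 4 * s.det = D := by rw [← dsc_eq, hsD]
  obtain ⟨κ, _, col, hc1, hc2⟩ := hMAT l s.trace s.det (by rw [hsD2]; exact hDu.ne_zero)
  obtain ⟨v, hv⟩ := hc2 s s' rfl hst.symm rfl hsd.symm (hc1 (by rw [hsD2]; exact hDu) s s')
  -- `v` is an isomorphism
  have hvg : ∀ g : Gal F, (v : Matrix (Fin 2) (Fin 2) ℤ_[l]) *
      (M.ρ l g : Matrix (Fin 2) (Fin 2) ℤ_[l]) = (M'.ρ l g : Matrix (Fin 2) (Fin 2) ℤ_[l]) * v := by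
    intro g
    obtain ⟨x, hx⟩ : ∃ x, x = (M.ρ l g : Matrix (Fin 2) (Fin 2) ℤ_[l]) := ⟨_, rfl⟩
    obtain ⟨x', hx'⟩ : ∃ x', x' = (M'.ρ l g : Matrix (Fin 2) (Fin 2) ℤ_[l]) := ⟨_, rfl⟩
    have c1 : x * s = s * x := by
      rw [hx, hs, ← Units.val_mul, ← Units.val_mul, hcomm]
    have c2 : x' * s' = s' * x' := by
      rw [hx', hs', ← Units.val_mul, ← Units.val_mul, hcomm']
    have d1 := dident s x c1
    have d2 := dident s' x' c2
    have f1 : x.trace = x'.trace := by rw [hx, hx', htr]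
    have f2 : (x * s).trace = (x' * s').trace := by
      rw [hx, hx', hs, hs', ← Units.val_mul, ← Units.val_mul, ← map_mul, ← map_mul, htr]
    have f3 : (s * s).trace = (s' * s').trace := by
      rw [hs, hs', ← Units.val_mul, ← Units.val_mul, ← map_mul, ← map_mul, htr]
    rw [← f1, ← f2, ← f3, ← hst, hsD'] at d2
    rw [hsD] at d1
    rw [← hx, ← hx']
    have key : (D : ℤ_[l]) • ((v : Matrix (Fin 2) (Fin 2) ℤ_[l]) * x) =
        (D : ℤ_[l]) • (x' * v) := by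
      rw [← Matrix.mul_smul, d1, ← Matrix.smul_mul, d2, Matrix.mul_add, Matrix.add_mul,
        Matrix.mul_smul, Matrix.mul_smul, Matrix.smul_mul, Matrix.smul_mul, Matrix.mul_one,
        Matrix.one_mul, hv]
    ext i j
    have := congrFun (congrFun key i) j
    rw [Matrix.smul_apply, Matrix.smul_apply, smul_eq_mul, smul_eq_mul] at this
    exact mul_left_cancel₀ hDu.ne_zero this
  -- reduction
  set π : ℤ_[l] →+* ZMod l := PadicInt.toZMod (p := l) with hπ
  obtain ⟨vb, hvb⟩ : ∃ vb : Matrix (Fin 2) (Fin 2) (ZMod l), vb =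
    ((v⁻¹ : Matrix.GeneralLinearGroup (Fin 2) ℤ_[l]) : Matrix (Fin 2) (Fin 2) ℤ_[l]).map π :=
    ⟨_, rfl⟩
  have hmm : ∀ X Y : Matrix (Fin 2) (Fin 2) ℤ_[l], (X * Y).map π = X.map π * Y.map π :=
    fun X Y => Matrix.map_mul
  have hvv : (v : Matrix (Fin 2) (Fin 2) ℤ_[l]).map π * vb = 1 := by
    rw [hvb, ← hmm, ← Units.val_mul, mul_inv_cancel, Units.val_one,
      Matrix.map_one _ (map_zero _) (map_one _)]
  have hvv' : vb * (v : Matrix (Fin 2) (Fin 2) ℤ_[l]).map π = 1 := by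
    rw [hvb, ← hmm, ← Units.val_mul, inv_mul_cancel, Units.val_one,
      Matrix.map_one _ (map_zero _) (map_one _)]
  have hc : (vb * u) * res (M.ρ l) τ = res (M.ρ l) τ * (vb * u) := by
    rw [Matrix.mul_assoc, hu, ← Matrix.mul_assoc, ← Matrix.mul_assoc]
    congr 1
    have h5 := congrArg (fun X : Matrix (Fin 2) (Fin 2) ℤ_[l] => X.map π) (hvg τ)
    simp only [hmm] at h5
    rw [← res_eq, ← res_eq] at h5
    calc vb * res (M'.ρ l) τ = vb * res (M'.ρ l) τ * ((v : Matrix (Fin 2) (Fin 2) ℤ_[l]).map π * vb) := by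
          rw [hvv, Matrix.mul_one]
      _ = vb * (res (M'.ρ l) τ * (v : Matrix (Fin 2) (Fin 2) ℤ_[l]).map π) * vb := by
          simp only [Matrix.mul_assoc]
      _ = vb * ((v : Matrix (Fin 2) (Fin 2) ℤ_[l]).map π * res (M.ρ l) τ) * vb := by rw [h5]
      _ = (vb * (v : Matrix (Fin 2) (Fin 2) ℤ_[l]).map π) * res (M.ρ l) τ * vb := by
          simp only [Matrix.mul_assoc]
      _ = res (M.ρ l) τ * vb := by rw [hvv', Matrix.one_mul]
  have hdi := dident _ _ hc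
  have hDb : dsc (res (M.ρ l) τ) = π (D : ℤ_[l]) := by
    have h4 : (4 : ZMod l) = π (4 : ℤ_[l]) := by
      rw [map_ofNat]
    rw [dsc_eq, res_tr, res_det, h4, ← hπ, ← map_pow, ← map_mul, ← map_sub, ← dsc_eq, hDl]
  obtain ⟨a, ha⟩ := ZMod.ringHom_surjective π ((vb * u).trace * (res (M.ρ l) τ * res (M.ρ l) τ).trace -
    (res (M.ρ l) τ).trace * ((vb * u) * res (M.ρ l) τ).trace)
  obtain ⟨b, hb⟩ := ZMod.ringHom_surjective π (2 * ((vb * u) * res (M.ρ l) τ).trace -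
    (res (M.ρ l) τ).trace * (vb * u).trace)
  obtain ⟨D', hD'⟩ := hDu.exists_left_inv
  rw [hDb, ← ha, ← hb] at hdi
  refine ⟨(v : Matrix (Fin 2) (Fin 2) ℤ_[l]) * (D' • (a • (1 : Matrix (Fin 2) (Fin 2) ℤ_[l]) + b • s)),
    ?_, fun g => ?_⟩
  · rw [hmm]
    have h6 : (D' • (a • (1 : Matrix (Fin 2) (Fin 2) ℤ_[l]) + b • s)).map π = vb * u := by
      have h7 : (D' • (a • (1 : Matrix (Fin 2) (Fin 2) ℤ_[l]) + b • s)).map π =
          π D' • (π a • (1 : Matrix (Fin 2) (Fin 2) (ZMod l)) + π b • res (M.ρ l) τ) := by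
        rw [res_eq, ← hπ, ← hs]
        ext i j
        simp only [Matrix.map_apply, Matrix.smul_apply, Matrix.one_apply, Matrix.add_apply,
          smul_eq_mul, map_mul, map_add]
        split_ifs <;> simp
      rw [h7, ← hdi, smul_smul, ← map_mul, hD', map_one, one_smul]
    rw [h6, ← Matrix.mul_assoc, hvv, Matrix.one_mul]
  · have c1 : s * (M.ρ l g : Matrix (Fin 2) (Fin 2) ℤ_[l]) =
        (M.ρ l g : Matrix (Fin 2) (Fin 2) ℤ_[l]) * s := by
      rw [hs, ← Units.val_mul, ← Units.val_mul, hcomm]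
    rw [Matrix.mul_assoc, ← Matrix.mul_assoc _ (v : Matrix (Fin 2) (Fin 2) ℤ_[l]), ← hvg,
      Matrix.mul_assoc]
    congr 1
    rw [Matrix.smul_mul, Matrix.mul_smul, Matrix.add_mul, Matrix.mul_add, Matrix.smul_mul,
      Matrix.mul_smul, Matrix.smul_mul, Matrix.mul_smul, Matrix.one_mul, Matrix.mul_one, c1]

end mot

theorem st_CMP (hFRB : ST_FRB) (hMAT : ST_MAT) : ST_CMP := by
  intro F _ _ S _ n n' w h h' M M' hM hM'
  obtain ⟨rfl, hss, hcomm, hreg⟩ := id hM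
  obtain ⟨rfl, hss', hcomm', hreg'⟩ := id hM'
  refine ⟨ssr hFRB M hM, ?_⟩
  by_cases h2 : ∀ g : Gal F, (M.ρ 2 g : Matrix (Fin 2) (Fin 2) ℤ_[2]).trace =
      (M'.ρ 2 g : Matrix (Fin 2) (Fin 2) ℤ_[2]).trace
  · exact caseA hFRB hMAT M M' hM hM' h2
  · have h3 : ¬ ∀ c : ℕ, ∃ (l : ℕ) (_ : Fact l.Prime), c < l ∧
        ∃ u : Matrix (Fin 2) (Fin 2) (ZMod l), u ≠ 0 ∧
          ∀ g, u * res (M.ρ l) g = res (M'.ρ l) g * u := fun hinf =>
      h2 (caseB hFRB M M' hcomm (hreg 4 (by norm_num) 2) hinf)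
    push Not at h3
    obtain ⟨c, hc⟩ := h3
    refine ⟨c, fun l hl hcl u hu => ?_⟩
    have hu0 : u = 0 := by
      by_contra hne
      obtain ⟨g, hg⟩ := hc l hl hcl u hne
      exact hg (hu g)
    refine ⟨0, ?_, fun g => ?_⟩
    · rw [hu0]
      ext i j
      simp
    · rw [Matrix.zero_mul, Matrix.mul_zero]

end Pool.Agent.Helper72.REC.C2
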