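import Pool.Agent.Helper72.REC.ETL

/-!
# REC.ST_PPB: pairs of potentially abelian motives   [helper72]
-/

set_option autoImplicit false

open Polynomial

namespace Pool.Agent.Helper72.REC.Ppb

open _root_.REC MU
open Pool.Agent.Helper72.REC.Etl

section bs

variable {A : Type*} [CommRing A] {n m : ℕ}

/-- the block diagonal matrix -/
def bd (x : Matrix (Fin n) (Fin n) A) (y : Matrix (Fin m) (Fin m) A) :
    Matrix (Fin (n + m)) (Fin (n + m)) A :=
  (Matrix.fromBlocks x 0 0 y).submatrix finSumFinEquiv.symm finSumFinEquiv.symm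

theorem bd_mul (x x' : Matrix (Fin n) (Fin n) A) (y y' : Matrix (Fin m) (Fin m) A) :
    bd (x * x') (y * y') = bd x y * bd x' y' := by
  rw [bd, bd, bd, Matrix.submatrix_mul_equiv, Matrix.fromBlocks_multiply]
  simp

theorem bd_one : bd (1 : Matrix (Fin n) (Fin n) A) (1 : Matrix (Fin m) (Fin m) A) = 1 := by
  rw [bd, Matrix.fromBlocks_one, Matrix.submatrix_one_equiv]

/-- the direct sum of two representations -/
def bh {G : Type*} [Group G] (r : G →* Matrix.GeneralLinearGroup (Fin n) A)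
    (s : G →* Matrix.GeneralLinearGroup (Fin m) A) :
    G →* Matrix.GeneralLinearGroup (Fin (n + m)) A :=
  MonoidHom.toHomUnits
    { toFun := fun g => bd (r g : Matrix (Fin n) (Fin n) A) (s g : Matrix (Fin m) (Fin m) A)
      map_one' := by
        rw [map_one, map_one, Units.val_one, Units.val_one, bd_one]
      map_mul' := by
        intro g g'
        rw [map_mul, map_mul, Units.val_mul, Units.val_mul, bd_mul] }

theorem bh_val {G : Type*} [Group G] (r : G →* Matrix.GeneralLinearGroup (Fin n) A)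
    (s : G →* Matrix.GeneralLinearGroup (Fin m) A) (g : G) :
    (bh r s g : Matrix (Fin (n + m)) (Fin (n + m)) A) =
      bd (r g : Matrix (Fin n) (Fin n) A) (s g : Matrix (Fin m) (Fin m) A) := rfl

theorem bd_map {A' : Type*} [CommRing A'] (φ : A →+* A') (x : Matrix (Fin n) (Fin n) A)
    (y : Matrix (Fin m) (Fin m) A) : (bd x y).map φ = bd (x.map φ) (y.map φ) := by
  rw [bd, bd, ← Matrix.submatrix_map, Matrix.fromBlocks_map]
  simp

theorem bd_charpoly (x : Matrix (Fin n) (Fin n) A) (y : Matrix (Fin m) (Fin m) A) :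
    (bd x y).charpoly = x.charpoly * y.charpoly := by
  have h1 : bd x y = Matrix.reindex finSumFinEquiv finSumFinEquiv (Matrix.fromBlocks x 0 0 y) :=
    rfl
  rw [h1, Matrix.charpoly_reindex, Matrix.charpoly_fromBlocks_zero₁₂]

/-- polynomials in a block diagonal matrix -/
theorem bd_aeval (R : ℤ[X]) (x : Matrix (Fin n) (Fin n) A) (y : Matrix (Fin m) (Fin m) A)
    (h : aeval (bd x y) R = 0) : aeval x R = 0 ∧ aeval y R = 0 := by
  have h1 : (Matrix.reindexAlgEquiv ℤ A (finSumFinEquiv : Fin n ⊕ Fin m ≃ Fin (n + m)))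
      (aeval (Matrix.fromBlocks x 0 0 y) R) = aeval (bd x y) R := by
    rw [← AlgEquiv.coe_toAlgHom, ← Polynomial.aeval_algHom_apply]
    rfl
  rw [h, EmbeddingLike.map_eq_zero_iff, dd_blocks] at h1
  have h2 := congrArg Matrix.toBlocks₁₁ h1
  have h3 := congrArg Matrix.toBlocks₂₂ h1
  rw [Matrix.toBlocks_fromBlocks₁₁] at h2
  rw [Matrix.toBlocks_fromBlocks₂₂] at h3
  exact ⟨h2, h3⟩

/-- commuting block matrices -/
theorem comm_iff (a x : Matrix (Fin n) (Fin n) A) (c : Matrix (Fin m) (Fin n) A)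
    (y : Matrix (Fin m) (Fin m) A) :
    (Matrix.fromBlocks a 0 c 0).submatrix finSumFinEquiv.symm finSumFinEquiv.symm * bd x y =
      bd x y * (Matrix.fromBlocks a 0 c 0).submatrix finSumFinEquiv.symm finSumFinEquiv.symm ↔
    a * x = x * a ∧ c * x = y * c := by
  rw [bd, Matrix.submatrix_mul_equiv, Matrix.submatrix_mul_equiv, Matrix.fromBlocks_multiply,
    Matrix.fromBlocks_multiply]
  have hinj : ∀ X Y : Matrix (Fin n ⊕ Fin m) (Fin n ⊕ Fin m) A,
      X.submatrix finSumFinEquiv.symm finSumFinEquiv.symm =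
        Y.submatrix finSumFinEquiv.symm finSumFinEquiv.symm ↔ X = Y := by
    intro X Y
    constructor
    · intro h
      ext i j
      have := congrFun (congrFun h (finSumFinEquiv i)) (finSumFinEquiv j)
      simpa using this
    · rintro rfl
      rfl
  rw [hinj]
  simp only [Matrix.mul_zero, Matrix.zero_mul, add_zero, zero_add]
  rw [Matrix.fromBlocks_inj]
  simp

end bs

/-! ## Complete reducibility of the sum -/

/-- the two ranks -/
def mm (n m : ℕ) : Fin 2 → ℕ
  | 0 => n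
  | 1 => m

/-- the two summands -/
def ss {G K : Type} [Group G] [Field K] {n m : ℕ} (r : G →* Matrix (Fin n) (Fin n) K)
    (s : G →* Matrix (Fin m) (Fin m) K) :
    ∀ i : Fin 2, G →* Matrix (Fin (mm n m i)) (Fin (mm n m i)) K
  | 0 => r
  | 1 => s

/-- the projections -/
def PPm (K : Type) [Field K] (n m : ℕ) : ∀ i : Fin 2, Matrix (Fin (mm n m i)) (Fin (n + m)) K
  | 0 => (Matrix.fromCols (1 : Matrix (Fin n) (Fin n) K) (0 : Matrix (Fin n) (Fin m) K)).submatrix
      id finSumFinEquiv.symm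
  | 1 => (Matrix.fromCols (0 : Matrix (Fin m) (Fin n) K) (1 : Matrix (Fin m) (Fin m) K)).submatrix
      id finSumFinEquiv.symm

/-- the inclusions -/
def QQm (K : Type) [Field K] (n m : ℕ) : ∀ i : Fin 2, Matrix (Fin (n + m)) (Fin (mm n m i)) K
  | 0 => (Matrix.fromRows (1 : Matrix (Fin n) (Fin n) K) (0 : Matrix (Fin m) (Fin n) K)).submatrix
      finSumFinEquiv.symm id
  | 1 => (Matrix.fromRows (0 : Matrix (Fin n) (Fin m) K) (1 : Matrix (Fin m) (Fin m) K)).submatrix
      finSumFinEquiv.symm id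

theorem ss_bd (hSSD : ST_SSD) {G K : Type} [Group G] [Field K] {n m : ℕ}
    (r : G →* Matrix (Fin n) (Fin n) K) (s : G →* Matrix (Fin m) (Fin m) K)
    (t : G →* Matrix (Fin (n + m)) (Fin (n + m)) K) (ht : ∀ g, t g = bd (r g) (s g))
    (hr : IsSS r) (hs : IsSS s) : IsSS t := by
  refine hSSD G K (n + m) 2 (mm n m) t (ss r s) (PPm K n m) (QQm K n m) ?_ ?_ ?_ ?_ ?_
  · rw [Fin.forall_fin_two]
    constructor
    · change (Matrix.fromCols (1 : Matrix (Fin n) (Fin n) K) (0 : Matrix (Fin n) (Fin m) K)).submatrix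
        id finSumFinEquiv.symm * (Matrix.fromRows (1 : Matrix (Fin n) (Fin n) K)
          (0 : Matrix (Fin m) (Fin n) K)).submatrix finSumFinEquiv.symm id = 1
      rw [Matrix.submatrix_mul_equiv, Matrix.fromCols_mul_fromRows]
      simp
    · change (Matrix.fromCols (0 : Matrix (Fin m) (Fin n) K) (1 : Matrix (Fin m) (Fin m) K)).submatrix
        id finSumFinEquiv.symm * (Matrix.fromRows (0 : Matrix (Fin n) (Fin m) K)
          (1 : Matrix (Fin m) (Fin m) K)).submatrix finSumFinEquiv.symm id = 1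
      rw [Matrix.submatrix_mul_equiv, Matrix.fromCols_mul_fromRows]
      simp
  · have h01 : PPm K n m 0 * QQm K n m 1 = 0 := by
      change (Matrix.fromCols (1 : Matrix (Fin n) (Fin n) K) (0 : Matrix (Fin n) (Fin m) K)).submatrix
        id finSumFinEquiv.symm * (Matrix.fromRows (0 : Matrix (Fin n) (Fin m) K)
          (1 : Matrix (Fin m) (Fin m) K)).submatrix finSumFinEquiv.symm id = 0
      rw [Matrix.submatrix_mul_equiv, Matrix.fromCols_mul_fromRows]
      simp
    have h10 : PPm K n m 1 * QQm K n m 0 = 0 := by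
      change (Matrix.fromCols (0 : Matrix (Fin m) (Fin n) K) (1 : Matrix (Fin m) (Fin m) K)).submatrix
        id finSumFinEquiv.symm * (Matrix.fromRows (1 : Matrix (Fin n) (Fin n) K)
          (0 : Matrix (Fin m) (Fin n) K)).submatrix finSumFinEquiv.symm id = 0
      rw [Matrix.submatrix_mul_equiv, Matrix.fromCols_mul_fromRows]
      simp
    rw [Fin.forall_fin_two]
    constructor
    · rw [Fin.forall_fin_two]
      exact ⟨fun h => absurd rfl h, fun _ => h01⟩
    · rw [Fin.forall_fin_two]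
      exact ⟨fun _ => h10, fun h => absurd rfl h⟩
  · rw [Fin.sum_univ_two]
    change (Matrix.fromRows (1 : Matrix (Fin n) (Fin n) K)
        (0 : Matrix (Fin m) (Fin n) K)).submatrix finSumFinEquiv.symm id *
      (Matrix.fromCols (1 : Matrix (Fin n) (Fin n) K) (0 : Matrix (Fin n) (Fin m) K)).submatrix
        id finSumFinEquiv.symm + (Matrix.fromRows (0 : Matrix (Fin n) (Fin m) K)
          (1 : Matrix (Fin m) (Fin m) K)).submatrix finSumFinEquiv.symm id *
      (Matrix.fromCols (0 : Matrix (Fin m) (Fin n) K) (1 : Matrix (Fin m) (Fin m) K)).submatrix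
        id finSumFinEquiv.symm = 1
    have e1 := Matrix.submatrix_mul_equiv (Matrix.fromRows (1 : Matrix (Fin n) (Fin n) K)
        (0 : Matrix (Fin m) (Fin n) K)) (Matrix.fromCols (1 : Matrix (Fin n) (Fin n) K)
        (0 : Matrix (Fin n) (Fin m) K)) finSumFinEquiv.symm (Equiv.refl (Fin n))
        finSumFinEquiv.symm
    have e2 := Matrix.submatrix_mul_equiv (Matrix.fromRows (0 : Matrix (Fin n) (Fin m) K)
        (1 : Matrix (Fin m) (Fin m) K)) (Matrix.fromCols (0 : Matrix (Fin m) (Fin n) K)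
        (1 : Matrix (Fin m) (Fin m) K)) finSumFinEquiv.symm (Equiv.refl (Fin m))
        finSumFinEquiv.symm
    simp only [Equiv.coe_refl] at e1 e2
    rw [e1, e2, Matrix.fromRows_mul_fromCols, Matrix.fromRows_mul_fromCols]
    have e3 : ∀ X Y : Matrix (Fin n ⊕ Fin m) (Fin n ⊕ Fin m) K,
        X.submatrix finSumFinEquiv.symm finSumFinEquiv.symm +
          Y.submatrix finSumFinEquiv.symm finSumFinEquiv.symm =
        (X + Y).submatrix finSumFinEquiv.symm finSumFinEquiv.symm := fun X Y => rfl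
    rw [e3, Matrix.fromBlocks_add]
    simp
  · rw [Fin.forall_fin_two]
    constructor
    · intro g
      rw [ht]
      change (Matrix.fromCols (1 : Matrix (Fin n) (Fin n) K) (0 : Matrix (Fin n) (Fin m) K)).submatrix
        id finSumFinEquiv.symm * (Matrix.fromBlocks (r g) 0 0 (s g)).submatrix
          finSumFinEquiv.symm finSumFinEquiv.symm = r g *
        (Matrix.fromCols (1 : Matrix (Fin n) (Fin n) K) (0 : Matrix (Fin n) (Fin m) K)).submatrix
          id finSumFinEquiv.symm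
      rw [Matrix.submatrix_mul_equiv, Matrix.fromCols_mul_fromBlocks]
      have e1 : r g * (Matrix.fromCols (1 : Matrix (Fin n) (Fin n) K)
          (0 : Matrix (Fin n) (Fin m) K)).submatrix id finSumFinEquiv.symm =
          (r g * Matrix.fromCols (1 : Matrix (Fin n) (Fin n) K)
            (0 : Matrix (Fin n) (Fin m) K)).submatrix id finSumFinEquiv.symm := rfl
      rw [e1, Matrix.mul_fromCols]
      simp
    · intro g
      rw [ht]
      change (Matrix.fromCols (0 : Matrix (Fin m) (Fin n) K) (1 : Matrix (Fin m) (Fin m) K)).submatrix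
        id finSumFinEquiv.symm * (Matrix.fromBlocks (r g) 0 0 (s g)).submatrix
          finSumFinEquiv.symm finSumFinEquiv.symm = s g *
        (Matrix.fromCols (0 : Matrix (Fin m) (Fin n) K) (1 : Matrix (Fin m) (Fin m) K)).submatrix
          id finSumFinEquiv.symm
      rw [Matrix.submatrix_mul_equiv, Matrix.fromCols_mul_fromBlocks]
      have e1 : s g * (Matrix.fromCols (0 : Matrix (Fin m) (Fin n) K)
          (1 : Matrix (Fin m) (Fin m) K)).submatrix id finSumFinEquiv.symm =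
          (s g * Matrix.fromCols (0 : Matrix (Fin m) (Fin n) K)
            (1 : Matrix (Fin m) (Fin m) K)).submatrix id finSumFinEquiv.symm := rfl
      rw [e1, Matrix.mul_fromCols]
      simp
  · rw [Fin.forall_fin_two]
    exact ⟨hr, hs⟩

/-! ## The theorem -/

theorem index_ne_zero {F : Type} [Field F] [NumberField F] {Y : Subgroup (Gal F)}
    (hY : IsOpen (Y : Set (Gal F))) : Y.index ≠ 0 := by
  have h1 : Finite (Gal F ⧸ Y) := Subgroup.quotient_finite_of_isOpen Y hY
  have h2 : Y.FiniteIndex := Subgroup.finiteIndex_of_finite_quotient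
  exact h2.index_ne_zero

section mot

variable {F : Type} [Field F] [NumberField F] {S : Finset ℕ} {w n m : ℕ}

theorem isFam (h : Fin n → ℕ) (h' : Fin m → ℕ) (M : Mot F S n w h) (M' : Mot F S m w h') :
    IsFam S (fun l [Fact l.Prime] => bh (M.ρ l) (M'.ρ l)) := by
  refine ⟨fun l _ => ?_, fun p hp hpS 𝔓 hov k σ hk hσ => ?_⟩
  · rw [Units.continuous_iff]
    have hc : Continuous fun g : Gal F =>
        (bh (M.ρ l) (M'.ρ l) g : Matrix (Fin (n + m)) (Fin (n + m)) ℤ_[l]) := by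
      have h1 : Continuous fun g : Gal F => (M.ρ l g : Matrix (Fin n) (Fin n) ℤ_[l]) :=
        Units.continuous_val.comp (M.continuous l)
      have h2 : Continuous fun g : Gal F => (M'.ρ l g : Matrix (Fin m) (Fin m) ℤ_[l]) :=
        Units.continuous_val.comp (M'.continuous l)
      exact (h1.matrix_fromBlocks continuous_const continuous_const h2).matrix_submatrix _ _
    refine ⟨hc, ?_⟩
    have h3 : (fun g : Gal F => ((bh (M.ρ l) (M'.ρ l) g)⁻¹ :
        Matrix.GeneralLinearGroup (Fin (n + m)) ℤ_[l]).val) =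
        fun g : Gal F => (bh (M.ρ l) (M'.ρ l) g⁻¹ : Matrix (Fin (n + m)) (Fin (n + m)) ℤ_[l]) := by
      funext g
      rw [map_inv]
    change Continuous fun g : Gal F => ((bh (M.ρ l) (M'.ρ l) g)⁻¹ :
        Matrix.GeneralLinearGroup (Fin (n + m)) ℤ_[l]).val
    rw [h3]
    exact hc.comp continuous_inv
  · obtain ⟨P, -, hP⟩ := M.pure p hp hpS 𝔓 hov k σ hk hσ
    obtain ⟨P', -, hP'⟩ := M'.pure p hp hpS 𝔓 hov k σ hk hσ
    refine ⟨P * P', fun l _ hl => ?_⟩
    rw [bh_val, bd_charpoly, hP l hl, hP' l hl, Polynomial.map_mul]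

/-- the two statements for one family -/
theorem core (hPBR : ST_PBR) (hETL : ST_ETL) (hSSD : ST_SSD) (h : Fin n → ℕ) (h' : Fin m → ℕ)
    (M : Mot F S n w h) (M' : Mot F S m w h') (hM : Pab M) (hM' : Pab M') :
    ∃ (U : Subgroup (Gal F)) (c : ℕ), IsOpen (U : Set (Gal F)) ∧
      ∀ (l : ℕ) [Fact l.Prime], c < l → IsSS ((res (M.ρ l)).comp U.subtype) ∧
        ∀ u : Matrix (Fin m) (Fin n) (ZMod l), (∀ a : U, u * res (M.ρ l) a = res (M'.ρ l) a * u) →
          ∃ x : Matrix (Fin m) (Fin n) ℤ_[l], x.map (PadicInt.toZMod (p := l)) = u ∧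
            ∀ a : U, x * (M.ρ l a : Matrix (Fin n) (Fin n) ℤ_[l]) =
              (M'.ρ l a : Matrix (Fin m) (Fin m) ℤ_[l]) * x := by
  obtain ⟨hss, H, hH, hc⟩ := hM
  obtain ⟨hss', H', hH', hc'⟩ := hM'
  obtain ⟨U, s, R, c₁, hUn, hUo, hUH, hsU, hR, hRs, hU⟩ := hPBR F S (n + m) _ (isFam h h' M M')
    (fun l _ => ss_bd hSSD (rat (M.ρ l)) (rat (M'.ρ l)) _ (fun g => bd_map (algebraMap ℤ_[l] ℚ_[l])
      (M.ρ l g : Matrix (Fin n) (Fin n) ℤ_[l]) (M'.ρ l g : Matrix (Fin m) (Fin m) ℤ_[l]))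
      (hss l) (hss' l)) (H ⊓ H') (hH.inter hH') (by
      intro l _ g hg g' hg'
      apply Units.ext
      rw [Units.val_mul, Units.val_mul, bh_val, bh_val, ← bd_mul, ← bd_mul, ← Units.val_mul,
        ← Units.val_mul, ← Units.val_mul, ← Units.val_mul, hc l g hg.1 g' hg'.1,
        hc' l g hg.2 g' hg'.2])
  obtain ⟨c₂, hc₂⟩ := hETL R hR hRs
  refine ⟨U, max c₁ c₂, hUo, fun l _ hl => ?_⟩
  obtain ⟨hR0, hcm⟩ := hU l ((le_max_left _ _).trans_lt hl)
  obtain ⟨hRs0, hRs1⟩ := bd_aeval R _ _ hR0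
  have hl2 := (le_max_right c₁ c₂).trans_lt hl
  -- endomorphisms and homomorphisms which commute with `s`
  have key : ∀ (a : Matrix (Fin n) (Fin n) ℤ_[l]) (b : Matrix (Fin m) (Fin n) ℤ_[l]),
      a * (M.ρ l s : Matrix (Fin n) (Fin n) ℤ_[l]) =
        (M.ρ l s : Matrix (Fin n) (Fin n) ℤ_[l]) * a →
      b * (M.ρ l s : Matrix (Fin n) (Fin n) ℤ_[l]) =
        (M'.ρ l s : Matrix (Fin m) (Fin m) ℤ_[l]) * b → ∀ g ∈ U,
      a * (M.ρ l g : Matrix (Fin n) (Fin n) ℤ_[l]) =
        (M.ρ l g : Matrix (Fin n) (Fin n) ℤ_[l]) * a ∧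
      b * (M.ρ l g : Matrix (Fin n) (Fin n) ℤ_[l]) =
        (M'.ρ l g : Matrix (Fin m) (Fin m) ℤ_[l]) * b := by
    intro a b ha hb g hg
    have h1 := hcm _ ((comm_iff a _ b _).mpr ⟨ha, hb⟩) g hg
    exact (comm_iff a _ b _).mp h1
  constructor
  · intro k B A hBA
    obtain ⟨hC, hB⟩ := hBA
    have hBs := hB ⟨s, hsU⟩
    obtain ⟨D, hD1, hD2⟩ := (hc₂ l hl2 n n _ _ hRs0 hRs0).2 k B (A ⟨s, hsU⟩) hC hBs
    refine ⟨D, hD1, ?_⟩
    have hcomm : B * D * res (M.ρ l) s = res (M.ρ l) s * (B * D) := by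
      have e1 : res (M.ρ l) s * B = B * A ⟨s, hsU⟩ := hBs
      have e2 : D * res (M.ρ l) s = A ⟨s, hsU⟩ * D := hD2
      rw [Matrix.mul_assoc, e2, ← Matrix.mul_assoc, ← Matrix.mul_assoc, e1]
    obtain ⟨x, hx1, hx2⟩ := (hc₂ l hl2 n n _ _ hRs0 hRs0).1 (B * D) hcomm
    intro g
    have h3 := (key x 0 hx2 (by rw [Matrix.zero_mul, Matrix.mul_zero]) g.1 g.2).1
    have h4 := congrArg (fun X : Matrix (Fin n) (Fin n) ℤ_[l] => X.map
      (PadicInt.toZMod (p := l))) h3
    simp only [Matrix.map_mul] at h4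
    rw [hx1] at h4
    have h5 : B * D * res (M.ρ l) g.1 = res (M.ρ l) g.1 * (B * D) := h4
    have h6 : res (M.ρ l) g.1 * B = B * A g := hB g
    change D * res (M.ρ l) g.1 = A g * D
    calc D * res (M.ρ l) g.1 = D * B * D * res (M.ρ l) g.1 := by rw [hD1, Matrix.one_mul]
      _ = D * (B * D * res (M.ρ l) g.1) := by simp only [Matrix.mul_assoc]
      _ = D * (res (M.ρ l) g.1 * B * D) := by rw [h5, Matrix.mul_assoc]
      _ = D * B * (A g * D) := by rw [h6]; simp only [Matrix.mul_assoc]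
      _ = A g * D := by rw [hD1, Matrix.one_mul]
  · intro u hu
    obtain ⟨x, hx1, hx2⟩ := (hc₂ l hl2 n m _ _ hRs0 hRs1).1 u (hu ⟨s, hsU⟩)
    exact ⟨x, hx1, fun a => (key 0 x (by rw [Matrix.zero_mul, Matrix.mul_zero]) hx2 a.1 a.2).2⟩

end mot

theorem st_PPB (hPBR : ST_PBR) (hETL : ST_ETL) (hAVS : ST_AVS) (hAVL : ST_AVL)
    (hSSD : ST_SSD) : ST_PPB := by
  intro F _ _ S _ n n' w h h' M M' hM hM'
  obtain ⟨U, c, hU, hc⟩ := core hPBR hETL hSSD h h' M M' hM hM'
  have hi := index_ne_zero hU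
  have hr : U.subtype.range = U := U.range_subtype
  have hdv : ∀ (l : ℕ) [Fact l.Prime], U.index < l → ¬ l ∣ U.subtype.range.index := by
    intro l _ hl hd
    rw [hr] at hd
    have := Nat.le_of_dvd (Nat.pos_of_ne_zero hi) hd
    omega
  refine ⟨⟨hM.1, max c U.index, fun l _ hl => ?_⟩, max c U.index, fun l _ hl u hu => ?_⟩
  · refine hAVS (Gal F) U (ZMod l) U.subtype n (res (M.ρ l)) ?_
      (hc l ((le_max_left _ _).trans_lt hl)).1
    rw [Ne, ZMod.natCast_eq_zero_iff]
    exact hdv l ((le_max_right _ _).trans_lt hl)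
  · exact hAVL (Gal F) U U.subtype n n' l (M.ρ l) (M'.ρ l) (hdv l ((le_max_right _ _).trans_lt hl))
      (hc l ((le_max_left _ _).trans_lt hl)).2 u hu

end Pool.Agent.Helper72.REC.Ppb
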