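import Pool.Agent.Helper85.REC.Stmts11

/-!
# REC.ST_ETL: lifting for matrices annihilated by a separable polynomial   [helper72]
-/

set_option autoImplicit false

open Polynomial

namespace Pool.Agent.Helper72.REC.Etl

section alg

variable {A : Type*} [CommRing A] {p q : Type*} [Fintype p] [DecidableEq p] [Fintype q]
  [DecidableEq q]

/-- intertwiners and polynomials -/
theorem aeval_inter (P : ℤ[X]) (x : Matrix p p A) (y : Matrix q q A) (T : Matrix p q A)
    (h : x * T = T * y) : aeval x P * T = T * aeval y P := by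
  have hpow : ∀ k : ℕ, x ^ k * T = T * y ^ k := by
    intro k
    induction k with
    | zero => rw [pow_zero, pow_zero, Matrix.one_mul, Matrix.mul_one]
    | succ k ih => rw [pow_succ, pow_succ, Matrix.mul_assoc, h, ← Matrix.mul_assoc, ih,
        Matrix.mul_assoc]
  induction P using Polynomial.induction_on' with
  | add f g hf hg => rw [map_add, map_add, Matrix.add_mul, Matrix.mul_add, hf, hg]
  | monomial k a =>
    rw [aeval_monomial, aeval_monomial, Algebra.algebraMap_eq_smul_one,
      Algebra.algebraMap_eq_smul_one, smul_one_mul, smul_one_mul, Matrix.smul_mul,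
      Matrix.mul_smul, hpow]

/-- the divided difference -/
noncomputable def Dd (P : ℤ[X]) (t : Matrix p p A) (u : Matrix p q A) (s : Matrix q q A) :
    Matrix p q A :=
  (aeval (Matrix.fromBlocks t u 0 s) P).toBlocks₁₂

theorem dd_blocks (P : ℤ[X]) (t : Matrix p p A) (u : Matrix p q A) (s : Matrix q q A) :
    aeval (Matrix.fromBlocks t u 0 s) P =
      Matrix.fromBlocks (aeval t P) (Dd P t u s) 0 (aeval s P) := by
  have hpow : ∀ k : ℕ, ∃ Y : Matrix p q A, (Matrix.fromBlocks t u 0 s) ^ k =
      Matrix.fromBlocks (t ^ k) Y 0 (s ^ k) := by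
    intro k
    induction k with
    | zero => exact ⟨0, by rw [pow_zero, pow_zero, pow_zero, Matrix.fromBlocks_one]⟩
    | succ k ih =>
      obtain ⟨Y, hY⟩ := ih
      refine ⟨t ^ k * u + Y * s, ?_⟩
      rw [pow_succ, hY, Matrix.fromBlocks_multiply, pow_succ, pow_succ]
      simp
  have h1 : ∃ Y : Matrix p q A, aeval (Matrix.fromBlocks t u 0 s) P =
      Matrix.fromBlocks (aeval t P) Y 0 (aeval s P) := by
    induction P using Polynomial.induction_on' with
    | add f g hf hg =>
      obtain ⟨Y, hY⟩ := hf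
      obtain ⟨Z, hZ⟩ := hg
      refine ⟨Y + Z, ?_⟩
      rw [map_add, map_add, map_add, hY, hZ, Matrix.fromBlocks_add, add_zero]
    | monomial k a =>
      obtain ⟨Y, hY⟩ := hpow k
      refine ⟨a • Y, ?_⟩
      rw [aeval_monomial, aeval_monomial, aeval_monomial, Algebra.algebraMap_eq_smul_one,
        Algebra.algebraMap_eq_smul_one, Algebra.algebraMap_eq_smul_one, smul_one_mul,
        smul_one_mul, smul_one_mul, hY, Matrix.fromBlocks_smul, smul_zero]
  obtain ⟨Y, hY⟩ := h1
  rw [Dd, hY, Matrix.toBlocks_fromBlocks₁₂]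

/-- the divided difference is almost an intertwiner -/
theorem dd_comm (P : ℤ[X]) (t : Matrix p p A) (u : Matrix p q A) (s : Matrix q q A)
    (ht : aeval t P = 0) (hs : aeval s P = 0) : t * Dd P t u s = Dd P t u s * s := by
  have h1 := aeval_inter P (Matrix.fromBlocks t u 0 s) (Matrix.fromBlocks t u 0 s)
    (Matrix.fromBlocks t u 0 s) rfl
  rw [dd_blocks, ht, hs, Matrix.fromBlocks_multiply, Matrix.fromBlocks_multiply] at h1
  have h2 := congrArg Matrix.toBlocks₁₂ h1
  rw [Matrix.toBlocks_fromBlocks₁₂, Matrix.toBlocks_fromBlocks₁₂] at h2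
  simp only [Matrix.zero_mul, Matrix.mul_zero, zero_add, add_zero] at h2
  exact h2.symm

/-- the divided difference of an intertwiner -/
theorem dd_der (P : ℤ[X]) (t : Matrix p p A) (u : Matrix p q A) (s : Matrix q q A)
    (h : t * u = u * s) : Dd P t u s = u * aeval s (derivative P) := by
  have hu : ∀ k : ℕ, t * (u * s ^ k) = u * s ^ (k + 1) := by
    intro k
    rw [← Matrix.mul_assoc, h, Matrix.mul_assoc, pow_succ']
  have hpow : ∀ k : ℕ, (Matrix.fromBlocks t u 0 s) ^ k =
      Matrix.fromBlocks (t ^ k) ((k : ℤ) • (u * s ^ (k - 1))) 0 (s ^ k) := by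
    intro k
    induction k with
    | zero =>
      rw [pow_zero, pow_zero, pow_zero]
      simp
    | succ k ih =>
      rw [pow_succ', ih, Matrix.fromBlocks_multiply, pow_succ', pow_succ']
      congr 1
      · simp
      · rcases Nat.eq_zero_or_pos k with rfl | hk
        · simp
        · rw [Matrix.mul_smul, hu, Nat.sub_add_cancel hk, Nat.add_sub_cancel]
          push_cast
          rw [add_smul, one_smul]
      · simp
      · simp
  have h1 : aeval (Matrix.fromBlocks t u 0 s) P =
      Matrix.fromBlocks (aeval t P) (u * aeval s (derivative P)) 0 (aeval s P) := by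
    induction P using Polynomial.induction_on' with
    | add f g hf hg =>
      rw [map_add, map_add, map_add, map_add, map_add, hf, hg, Matrix.fromBlocks_add, add_zero,
        Matrix.mul_add]
    | monomial k a =>
      rw [aeval_monomial, aeval_monomial, aeval_monomial, Algebra.algebraMap_eq_smul_one,
        Algebra.algebraMap_eq_smul_one, Algebra.algebraMap_eq_smul_one, smul_one_mul,
        smul_one_mul, smul_one_mul, hpow, Matrix.fromBlocks_smul, smul_zero,
        derivative_monomial, aeval_monomial, Algebra.algebraMap_eq_smul_one, smul_one_mul,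
        Matrix.mul_smul, smul_smul]
  rw [Dd, h1, Matrix.toBlocks_fromBlocks₁₂]

/-- the divided difference and intertwiners on the right -/
theorem dd_right {r : Type*} [Fintype r] [DecidableEq r] (P : ℤ[X]) (t : Matrix p p A)
    (u : Matrix p q A) (s : Matrix q q A) (B : Matrix q r A) (a : Matrix r r A)
    (h : s * B = B * a) : Dd P t u s * B = Dd P t (u * B) a := by
  have h1 := aeval_inter P (Matrix.fromBlocks t u 0 s) (Matrix.fromBlocks t (u * B) 0 a)
    (Matrix.fromBlocks 1 0 0 B) (by
      rw [Matrix.fromBlocks_multiply, Matrix.fromBlocks_multiply]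
      simp [h])
  rw [dd_blocks, dd_blocks, Matrix.fromBlocks_multiply, Matrix.fromBlocks_multiply] at h1
  have h2 := congrArg Matrix.toBlocks₁₂ h1
  rw [Matrix.toBlocks_fromBlocks₁₂, Matrix.toBlocks_fromBlocks₁₂] at h2
  simpa using h2

/-- ring homomorphisms -/
theorem aeval_mapM {A' : Type*} [CommRing A'] (φ : A →+* A') (P : ℤ[X]) (x : Matrix p p A) :
    (aeval x P).map φ = aeval (x.map φ) P := by
  have h1 := Polynomial.map_aeval_eq_aeval_map (R := ℤ) (S := Matrix p p A) (T := ℤ)
    (U := Matrix p p A') (φ := RingHom.id ℤ) (ψ := φ.mapMatrix) (by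
      exact RingHom.ext_int _ _) P x
  rw [Polynomial.map_id] at h1
  exact h1

theorem dd_map {A' : Type*} [CommRing A'] (φ : A →+* A') (P : ℤ[X]) (t : Matrix p p A)
    (u : Matrix p q A) (s : Matrix q q A) :
    (Dd P t u s).map φ = Dd P (t.map φ) (u.map φ) (s.map φ) := by
  have h1 := aeval_mapM φ P (Matrix.fromBlocks t u 0 s)
  rw [dd_blocks, Matrix.fromBlocks_map, Matrix.fromBlocks_map] at h1
  have h3 : (0 : Matrix q p A).map φ = 0 := by
    ext i j
    simp
  rw [h3, dd_blocks] at h1
  have h2 := congrArg Matrix.toBlocks₁₂ h1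
  rw [Matrix.toBlocks_fromBlocks₁₂, Matrix.toBlocks_fromBlocks₁₂] at h2
  exact h2

end alg

/-- denominators -/
theorem clear (f : ℚ[X]) : ∃ (d : ℤ) (g : ℤ[X]), d ≠ 0 ∧
    g.map (Int.castRingHom ℚ) = C (d : ℚ) * f := by
  obtain ⟨b, hbm, hb⟩ := IsLocalization.integerNormalization_spec (nonZeroDivisors ℤ) f
  refine ⟨b, IsLocalization.integerNormalization (nonZeroDivisors ℤ) f,
    nonZeroDivisors.ne_zero hbm, ?_⟩
  rw [← algebraMap_int_eq, hb]
  ext i
  simp

theorem bezout (R : ℤ[X]) (h : (R.map (Int.castRingHom ℚ)).Separable) :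
    ∃ (d : ℤ) (f g : ℤ[X]), d ≠ 0 ∧ f * R + g * derivative R = C d := by
  obtain ⟨a, b, hab⟩ := h
  obtain ⟨d₁, f, hd₁, hf⟩ := clear a
  obtain ⟨d₂, g, hd₂, hg⟩ := clear b
  refine ⟨d₁ * d₂, C d₂ * f, C d₁ * g, mul_ne_zero hd₁ hd₂, ?_⟩
  apply Polynomial.map_injective (Int.castRingHom ℚ) (RingHom.injective_int _)
  simp only [Polynomial.map_add, Polynomial.map_mul, Polynomial.map_C, ← derivative_map, hf, hg]
  have e : (Int.castRingHom ℚ) (d₁ * d₂) = (d₁ : ℚ) * d₂ := by simp
  rw [e, C_mul]
  simp only [eq_intCast]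
  linear_combination (C (d₁ : ℚ) * C (d₂ : ℚ)) * hab

theorem st_ETL : _root_.REC.ST_ETL := by
  intro R hR hsep
  obtain ⟨d, f, g, hd, hfg⟩ := bezout R hsep
  refine ⟨d.natAbs, fun l _ hl n m s t hs ht => ?_⟩
  have hdu : IsUnit (d : ℤ_[l]) := by
    rw [PadicInt.isUnit_iff]
    by_contra h7
    have h8 : ‖(d : ℤ_[l])‖ < 1 := lt_of_le_of_ne (PadicInt.norm_le_one _) h7
    have h9 := (PadicInt.norm_int_lt_one_iff_dvd d).mp h8
    have h10 := Int.natAbs_dvd_natAbs.mpr h9
    rw [Int.natAbs_natCast] at h10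
    have h11 := Nat.le_of_dvd (Int.natAbs_pos.mpr hd) h10
    omega
  obtain ⟨d', hd'⟩ := hdu.exists_left_inv
  set π : ℤ_[l] →+* ZMod l := PadicInt.toZMod (p := l) with hπ
  obtain ⟨db, hdb⟩ : ∃ db : ZMod l, db * (d : ZMod l) = 1 := by
    refine ⟨π d', ?_⟩
    have := congrArg π hd'
    rw [map_mul, map_intCast, map_one] at this
    exact this
  -- the inverse of the derivative
  have hinv : ∀ {A : Type} [CommRing A] {k : ℕ} (x : Matrix (Fin k) (Fin k) A) (e : A),
      e * (d : A) = 1 → aeval x R = 0 →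
      aeval x (derivative R) * (e • aeval x g) = 1 := by
    intro A _ k x e he hx
    have h1 := congrArg (aeval x) hfg
    rw [map_add, map_mul, map_mul, hx, mul_zero, zero_add, aeval_C] at h1
    have h2 : aeval x (derivative R) * aeval x g = (d : A) • (1 : Matrix (Fin k) (Fin k) A) := by
      rw [← map_mul, mul_comm, map_mul, h1, Algebra.algebraMap_eq_smul_one]
      ext i j
      simp
    rw [Matrix.mul_smul, h2, smul_smul, he, one_smul]
  constructor
  · intro u hu
    have hlift : ∃ u' : Matrix (Fin m) (Fin n) ℤ_[l], u'.map π = u := by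
      choose lf hlf using ZMod.ringHom_surjective π
      exact ⟨u.map lf, by ext i j; simp [hlf]⟩
    obtain ⟨u', hu'⟩ := hlift
    refine ⟨Dd R t u' s * (d' • aeval s g), ?_, ?_⟩
    · rw [Matrix.map_mul, dd_map, hu', dd_der R _ _ _ hu.symm]
      have h3 : (d' • aeval s g).map π = π d' • aeval (s.map π) g := by
        rw [← aeval_mapM]
        ext i j
        simp
      rw [h3, Matrix.mul_assoc, hinv (s.map π) (π d') (by
        have := congrArg π hd'
        rw [map_mul, map_intCast, map_one] at this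
        exact this) (by
        rw [← aeval_mapM, hs]
        ext i j
        simp), Matrix.mul_one]
    · rw [← Matrix.mul_assoc, dd_comm R t u' s ht hs, Matrix.mul_assoc, Matrix.mul_assoc]
      congr 1
      rw [Matrix.smul_mul, Matrix.mul_smul, aeval_inter g s s s rfl]
  · intro k B a hC hB
    obtain ⟨C, hC⟩ := hC
    have hsb : aeval (s.map π) R = 0 := by
      rw [← aeval_mapM, hs]
      ext i j
      simp
    have hab : aeval a R = 0 := by
      have h1 := aeval_inter R (s.map π) a B hB
      rw [hsb, Matrix.zero_mul] at h1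
      have h2 := congrArg (fun X => C * X) h1
      simp only [Matrix.mul_zero] at h2
      rw [← Matrix.mul_assoc, hC, Matrix.one_mul] at h2
      exact h2.symm
    refine ⟨Dd R a C (s.map π) * (db • aeval (s.map π) g), ?_, ?_⟩
    · rw [Matrix.mul_assoc, Matrix.smul_mul, aeval_inter g (s.map π) a B hB, ← Matrix.mul_smul,
        ← Matrix.mul_assoc, dd_right R a C (s.map π) B a hB, hC, dd_der R a 1 a (by
          rw [Matrix.mul_one, Matrix.one_mul]), Matrix.one_mul]
      exact hinv a db hdb hab
    · rw [← Matrix.mul_assoc, dd_comm R a C (s.map π) hab hsb, Matrix.mul_assoc, Matrix.mul_assoc]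
      congr 1
      rw [Matrix.smul_mul, Matrix.mul_smul, aeval_inter g (s.map π) (s.map π) (s.map π) rfl]

end Pool.Agent.Helper72.REC.Etl
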