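import Pool.Agent.Helper85.REC.Stmts9
import Pool.Agent.Helper18.REC.RelCore

/-!
# REL3: the exact relation for all constituents, from the data at infinitely many `l`
-/

set_option autoImplicit false

open scoped Classical
open NumberField Polynomial

namespace Pool.Agent.Helper72.REC.R3

open _root_.REC
open Pool.Agent.Helper13.ZL (Pl q)
open MU
open Pool.Agent.Helper18.REC (ev_pow bound_of_mem)

theorem exists_Bl (F : Type) [Field F] [NumberField F] (l : ℕ) [Fact l.Prime] :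
    ∃ Bl : Finset (Pl F), ∀ v : Pl F, v ∈ Bl ↔ (l : 𝓞 F) ∈ v.asIdeal := by
  have h0 : Ideal.span {(l : 𝓞 F)} ≠ 0 := by
    rw [Ideal.zero_eq_bot, Ne, Ideal.span_singleton_eq_bot]
    exact_mod_cast (Fact.out : l.Prime).ne_zero
  refine ⟨(Ideal.finite_factors h0).toFinset, fun v => ?_⟩
  rw [Set.Finite.mem_toFinset, Set.mem_ofPred_eq, Ideal.dvd_span_singleton]

theorem pl_eq_of_pow_le {F : Type} [Field F] [NumberField F] (v w' : Pl F) (m : ℕ)
    (hvw : v.asIdeal ^ m ≤ w'.asIdeal) : v = w' := by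
  have h1 : v.asIdeal ≤ w'.asIdeal := Ideal.IsPrime.le_of_pow_le hvw
  have h2 : v.asIdeal = w'.asIdeal :=
    (v.isMaximal).eq_of_le w'.isPrime.ne_top h1
  exact IsDedekindDomain.HeightOneSpectrum.ext h2

theorem exists_unif {F : Type} [Field F] [NumberField F] (v : Pl F) :
    ∃ π : 𝓞 F, π ∈ v.asIdeal ∧ π ∉ v.asIdeal ^ 2 := by
  obtain ⟨π, h1, h2⟩ := Ideal.exists_mem_pow_notMem_pow_succ v.asIdeal v.ne_bot
    v.isPrime.ne_top 1
  exact ⟨π, by simpa using h1, h2⟩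

/-- the relation modulo a prime over `l` -/
def RelMod {F : Type} [Field F] [NumberField F] {S : Finset ℕ} {n w : ℕ} {h : Fin n → ℕ}
    (M : Mot F S n w h) (L : Type) [Field L] [NumberField L]
    (g : (F →+* L) → Equiv.Perm (Fin n)) (l : ℕ) : Prop :=
  ∃ (k : Type) (_ : Field k) (ι : 𝓞 L →+* k), ι (l : 𝓞 L) = 0 ∧
    ∀ (v : Pl F) (p : ℕ) (𝔓 : Ideal (Zb F)) (j m : ℕ) (σ : Gal F) (x : 𝓞 F) (P : ℤ[X]),
      p.Prime → (p : 𝓞 F) ∈ v.asIdeal → OverP v 𝔓 → l ≠ p →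
      CongPow 𝔓 (q v ^ j) σ → TotPos (x : F) → Ideal.span {x} = v.asIdeal ^ m →
      (∀ (l : ℕ) [Fact l.Prime], l ≠ p →
        (((M.ρ l (σ ^ m))⁻¹ : Matrix.GeneralLinearGroup (Fin n) ℤ_[l]) :
          Matrix (Fin n) (Fin n) ℤ_[l]).charpoly = P.map (Int.castRingHom ℤ_[l])) →
      (P.map (Int.castRingHom (𝓞 L))).map ι =
        (∏ i, (Polynomial.X -
          C (∏ τ : F →+* L, RingOfIntegers.mapRingHom τ x ^ (h (g τ i) * j)))).map ι

theorem relMod_of_fdat (hLART : ST_LART) (hEV : ST_EV) (hFRV : ST_FRV) {F L : Type} [Field F]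
    [NumberField F] [Field L] [NumberField L] [IsGalois ℚ L] [Nonempty (F →+* L)] {S : Finset ℕ}
    {n w : ℕ} {h : Fin n → ℕ} (M : Mot F S n w h) (j₀ : L →+* AlgebraicClosure F)
    (hj₀ : Function.Bijective (fun τ : F →+* L => j₀.comp τ)) (l : ℕ) [Fact l.Prime]
    (hD : FDat M l) : ∃ g : (F →+* L) → Equiv.Perm (Fin n), RelMod M L g l := by
  obtain ⟨k, _, κ, ι₀, δ, e, he, hop, hun, hta, hch⟩ := hD
  choose s hs using he
  have hlP : l.Prime := Fact.out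
  refine ⟨fun τ => s (j₀.comp τ), k, inferInstance, ι₀.comp (RingOfIntegers.mapRingHom j₀), ?_, ?_⟩
  · rw [map_natCast]
    have := map_natCast κ l
    rw [← this, ZMod.natCast_self, map_zero]
  set ι : 𝓞 L →+* k := ι₀.comp (RingOfIntegers.mapRingHom j₀) with hι
  have hιl : ι (l : 𝓞 L) = 0 := by
    rw [map_natCast]
    have := map_natCast κ l
    rw [← this, ZMod.natCast_self, map_zero]
  intro v p 𝔓 j m σ x P hp hpv h𝔓 hlp hσ hx hxv hP
  obtain ⟨Bl, hBl⟩ := exists_Bl F l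
  choose π hπ using fun v : Pl F => exists_unif v
  -- the Frobenius functions
  have hφ : ∀ i, ∃ φ : Pl F → kˣ, IsPhi (δ i) Bl φ := by
    intro i
    have h1 : ∀ u : Pl F, ∃ a : kˣ, (u ∈ Bl → a = 1) ∧ (u ∉ Bl → IsFr (δ i) u a) := by
      intro u
      by_cases hu : u ∈ Bl
      · exact ⟨1, fun _ => rfl, fun h => absurd hu h⟩
      · obtain ⟨a, ha⟩ := (hFRV F kˣ (δ i) u).1 (hun i u (fun h => hu ((hBl u).mpr h)))
        exact ⟨a, fun h => absurd h hu, fun _ => ha⟩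
    choose φ hφ using h1
    exact ⟨φ, fun u hu => (hφ u).1 hu, fun u hu => (hφ u).2 hu⟩
  choose φ hφ using hφ
  -- places
  have hcop : ∀ u : Pl F, (p : 𝓞 F) ∈ u.asIdeal → (l : 𝓞 F) ∈ u.asIdeal → False := by
    intro u h1 h2
    have h3 : IsCoprime (l : ℤ) (p : ℤ) := by
      rw [Nat.isCoprime_iff_coprime]
      exact (Nat.coprime_primes hlP hp).mpr hlp
    obtain ⟨a, b, hab⟩ := h3
    apply u.isPrime.ne_top
    rw [Ideal.eq_top_iff_one]
    have h4 : (a : 𝓞 F) * (l : 𝓞 F) + (b : 𝓞 F) * (p : 𝓞 F) = 1 := by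
      exact_mod_cast congrArg (Int.cast : ℤ → 𝓞 F) hab
    rw [← h4]
    exact add_mem (Ideal.mul_mem_left _ _ h2) (Ideal.mul_mem_left _ _ h1)
  have hvB : v ∉ Bl := fun h1 => hcop v hpv ((hBl v).mp h1)
  have hxB : ∀ u ∈ Bl, x ∉ u.asIdeal := by
    intro u hu hxu
    have h1 : v.asIdeal ^ m ≤ u.asIdeal := by
      rw [← hxv, Ideal.span_singleton_le_iff_mem]; exact hxu
    have h2 : v = u := pl_eq_of_pow_le v u m h1
    exact hvB (h2 ▸ hu)
  have hx0 : x ≠ 0 := by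
    rintro rfl
    have h1 : (⊥ : Ideal (𝓞 F)) = v.asIdeal ^ m := by
      rw [← hxv, Ideal.span_singleton_eq_bot.mpr rfl]
    exact (pow_ne_zero m v.ne_bot) h1.symm
  -- the formula for each character
  have key : ∀ i, ((δ i ((σ ^ m)⁻¹) : kˣ) : k) =
      ι (∏ τ : F →+* L, RingOfIntegers.mapRingHom τ x ^ (h (s (j₀.comp τ) i) * j)) := by
    intro i
    have h1 := hLART F L l k ι hιl (δ i) Bl (φ i) π (fun τ => e i (j₀.comp τ)) hBl (hop i) (hφ i)
      (fun u hu => ⟨hπ u, fun 𝔔 h𝔔 σ' hσ' y hy hT => by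
        have h2 := hta i u ((hBl u).mp hu) (π u) (hπ u).1 (hπ u).2 𝔔 h𝔔 σ' hσ' y hy hT
        refine Eq.trans ?_ h2
        congr 1
        unfold tmp
        exact Function.Bijective.prod_comp hj₀ (fun τ' : F →+* AlgebraicClosure F =>
          if RingHom.ker (ι₀.comp (RingOfIntegers.mapRingHom τ')) = u.asIdeal then
            ι₀ (RingOfIntegers.mapRingHom τ' y) ^ e i τ' else 1)⟩)
      x hx0 hx hxB
    have hev : ev (φ i) (Ideal.span {x}) = φ i v ^ m := by rw [hxv, ev_pow hEV]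
    have hεσ : δ i σ = φ i v ^ j := (hφ i).2 v hvB 𝔓 h𝔓 j σ hσ
    have hεσm : δ i (σ ^ m) = (φ i v ^ m) ^ j := by
      rw [map_pow, hεσ, ← pow_mul, ← pow_mul, mul_comm]
    rw [hev] at h1
    have h3 : ι (∏ τ : F →+* L, RingOfIntegers.mapRingHom τ x ^ (h (s (j₀.comp τ) i) * j)) =
        (∏ τ : F →+* L, ι (RingOfIntegers.mapRingHom τ x) ^ e i (j₀.comp τ)) ^ j := by
      rw [map_prod, ← Finset.prod_pow]
      exact Finset.prod_congr rfl fun τ _ => by rw [map_pow, pow_mul, hs]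
    rw [h3, map_inv, hεσm, ← inv_pow, Units.val_pow_eq_pow_val]
    congr 1
    exact Units.inv_eq_of_mul_eq_one_right h1
  have h5 := hch ((σ ^ m)⁻¹)
  have h6 : (res (M.ρ l) ((σ ^ m)⁻¹)).charpoly.map κ = P.map (Int.castRingHom k) := by
    have h7 : res (M.ρ l) ((σ ^ m)⁻¹) =
        (((M.ρ l (σ ^ m))⁻¹ : Matrix.GeneralLinearGroup (Fin n) ℤ_[l]) :
          Matrix (Fin n) (Fin n) ℤ_[l]).map (PadicInt.toZMod (p := l)) := by
      rw [← map_inv]
      rfl
    rw [h7, Matrix.charpoly_map, hP l hlp, Polynomial.map_map, Polynomial.map_map]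
    congr 1
    exact RingHom.ext_int _ _
  rw [Polynomial.map_map, Polynomial.map_prod]
  have h8 : ι.comp (Int.castRingHom (𝓞 L)) = Int.castRingHom k := RingHom.ext_int _ _
  rw [h8, ← h6, h5]
  refine Finset.prod_congr rfl fun i _ => ?_
  rw [Polynomial.map_sub, Polynomial.map_X, Polynomial.map_C, key i]

theorem st_REL3 : ST_LART → ST_EV → ST_FRV → ST_CNV → _root_.REC.ST_REL3 := by
  intro hLART hEV hFRV hCNV F L _ _ _ _ _ _ S hS n w h M hinf
  obtain ⟨j₀, hj₀⟩ := hCNV F L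
  -- one pattern for infinitely many `l`
  have h1 : ∃ g : (F →+* L) → Equiv.Perm (Fin n), ∀ c : ℕ, ∃ l : ℕ, l.Prime ∧ c < l ∧
      RelMod M L g l := by
    by_contra hcon
    push Not at hcon
    choose c hc using hcon
    obtain ⟨l, hl, hlc, hD⟩ := hinf (∑ g : (F →+* L) → Equiv.Perm (Fin n), c g)
    obtain ⟨g, hg⟩ := relMod_of_fdat hLART hEV hFRV (L := L) M j₀ hj₀ l hD
    have h2 : c g ≤ ∑ g : (F →+* L) → Equiv.Perm (Fin n), c g :=
      Finset.single_le_sum (f := c) (fun _ _ => Nat.zero_le _) (Finset.mem_univ g)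
    exact hc g l hl.out (by omega) hg
  obtain ⟨g, hg⟩ := h1
  refine ⟨fun i τ => h (g τ i), fun τ => ⟨g τ, fun i => rfl⟩, S, subset_rfl, ?_⟩
  intro v p 𝔓 j m σ x P hp hpS hpv h𝔓 hj hm hσ hx hxv hP
  rw [← sub_eq_zero]
  ext1 a
  by_contra hne
  rw [Polynomial.coeff_zero] at hne
  obtain ⟨c, hc⟩ := bound_of_mem L _ hne
  obtain ⟨l, hl, hlc, k, _, ι, hιl, hrel⟩ := hg (c + p)
  have hlp : l ≠ p := by omega
  refine hc l hl (by omega) (RingHom.ker ι) (RingHom.ker_isPrime ι)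
    ((RingHom.mem_ker).mpr hιl) ?_
  rw [RingHom.mem_ker, ← Polynomial.coeff_map, Polynomial.map_sub,
    hrel v p 𝔓 j m σ x P hp hpv h𝔓 hlp hσ hx hxv hP, sub_self, Polynomial.coeff_zero]

end Pool.Agent.Helper72.REC.R3
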