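import Pool.Agent.Helper57.REC.Stmts1

/-!
# The support of the weight, and the decay of `gs`
-/

set_option autoImplicit false

open scoped Classical
open NumberField MeasureTheory

namespace REC

open Pool.Agent.Helper13.ZL (Pl q HasMean)
open MU (Gal Zb Over CongPow)
open mixedEmbedding InfinitePlace
open NumberField.Units.dirichletUnitTheorem (w₀)

namespace H72

variable {F : Type} [Field F] [NumberField F]

theorem tent_nonneg (t : ℝ) : 0 ≤ tent t := le_max_left _ _

theorem tent_le_one (t : ℝ) : tent t ≤ 1 :=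
  max_le zero_le_one (by linarith [abs_nonneg t])

theorem lt_of_tent {t : ℝ} (h : tent t ≠ 0) : |t| < 1 := by
  by_contra h1
  push Not at h1
  exact h (max_eq_left (by linarith))

theorem wt_nonneg (M : ℕ) (x : mixedSpace F) : 0 ≤ wt M x := by
  unfold wt
  split_ifs
  · exact Finset.prod_nonneg fun i _ => tent_nonneg _
  · exact le_rfl

theorem wt_le_one (M : ℕ) (x : mixedSpace F) : wt M x ≤ 1 := by
  unfold wt
  split_ifs
  · exact Finset.prod_le_one (fun i _ => tent_nonneg _) fun i _ => tent_le_one _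
  · exact zero_le_one

theorem uco_le {M : ℕ} (hM : 0 < M) {x : mixedSpace F} (h : wt M x ≠ 0) (i : Fin (Units.rank F)) :
    |uco x i| ≤ M := by
  have hM' : (0 : ℝ) < M := by exact_mod_cast hM
  unfold wt at h
  split_ifs at h
  · have h1 := lt_of_tent (Finset.prod_ne_zero_iff.mp h i (Finset.mem_univ i))
    rw [abs_div, div_lt_one (abs_pos.mpr hM'.ne'), abs_of_pos hM'] at h1
    exact h1.le
  · exact absurd rfl h

/-- the logarithms are bounded -/
theorem logMap_bound (M : ℕ) : ∃ R : ℝ, 0 ≤ R ∧ ∀ x : mixedSpace F,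
    (∀ i, |uco x i| ≤ M) → ∀ w, |logMap x w| ≤ R := by
  set B := (Units.basisUnitLattice F).ofZLatticeBasis ℝ (Units.unitLattice F) with hB
  refine ⟨∑ i, ∑ w, (M : ℝ) * |B i w|,
    Finset.sum_nonneg fun i _ => Finset.sum_nonneg fun w _ => by positivity, fun x hx w => ?_⟩
  have h1 : logMap x = ∑ i, uco x i • B i := (B.sum_repr (logMap x)).symm
  have h2 : logMap x w = ∑ i, uco x i * B i w := by
    conv_lhs => rw [h1]
    rw [Finset.sum_apply]
    rfl
  rw [h2]
  refine (Finset.abs_sum_le_sum_abs _ _).trans (Finset.sum_le_sum fun i _ => ?_)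
  rw [abs_mul]
  refine (mul_le_mul_of_nonneg_right (hx i) (abs_nonneg _)).trans ?_
  exact Finset.single_le_sum (f := fun w => (M : ℝ) * |B i w|) (fun w _ => by positivity)
    (Finset.mem_univ w)

/-- the logarithms of the absolute values differ boundedly from their mean -/
theorem log_bound {R : ℝ} (hR : 0 ≤ R) {x : mixedSpace F} (hx : mixedEmbedding.norm x ≠ 0)
    (h : ∀ w, |logMap x w| ≤ R) (w : InfinitePlace F) :
    |Real.log (normAtPlace w x) -
      Real.log (mixedEmbedding.norm x) * (Module.finrank ℚ F : ℝ)⁻¹| ≤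
      Fintype.card (InfinitePlace F) * R := by
  set L := Real.log (mixedEmbedding.norm x) * (Module.finrank ℚ F : ℝ)⁻¹ with hL
  have hd : (Module.finrank ℚ F : ℝ) ≠ 0 := by
    exact_mod_cast (Module.finrank_pos (R := ℚ) (M := F)).ne'
  have hm : ∀ w : InfinitePlace F, (1 : ℝ) ≤ mult w := by
    intro w
    exact_mod_cast (Nat.one_le_iff_ne_zero.mpr mult_ne_zero)
  have hcard : (1 : ℝ) ≤ Fintype.card (InfinitePlace F) := by
    exact_mod_cast (Nat.one_le_iff_ne_zero.mpr Fintype.card_ne_zero)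
  have key : ∀ w : InfinitePlace F, |(mult w : ℝ) * (Real.log (normAtPlace w x) - L)| ≤
      Fintype.card (InfinitePlace F) * R := by
    intro w
    by_cases hw : w = w₀
    · subst hw
      have h1 : ∑ w : InfinitePlace F, (mult w : ℝ) * (Real.log (normAtPlace w x) - L) = 0 := by
        have h2 : ∑ w : InfinitePlace F, (mult w : ℝ) * Real.log (normAtPlace w x) =
            Real.log (mixedEmbedding.norm x) := by
          rw [mixedEmbedding.norm_apply, Real.log_prod]
          · exact Finset.sum_congr rfl fun w _ => (Real.log_pow _ _).symm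
          · intro w _
            exact pow_ne_zero _ (mixedEmbedding.norm_ne_zero_iff.mp hx w)
        simp only [mul_sub, Finset.sum_sub_distrib, h2, ← Finset.sum_mul]
        have h3 : ∑ w : InfinitePlace F, (mult w : ℝ) = Module.finrank ℚ F := by
          rw [← Nat.cast_sum, sum_mult_eq]
        rw [h3, hL]
        field_simp
        ring
      rw [Fintype.sum_eq_add_sum_subtype_ne _ w₀] at h1
      have h4 : (mult (w₀ : InfinitePlace F) : ℝ) * (Real.log (normAtPlace w₀ x) - L) =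
          -∑ w : {w : InfinitePlace F // w ≠ w₀}, logMap x w := by
        rw [eq_neg_iff_add_eq_zero]
        exact h1
      rw [h4, abs_neg]
      refine (Finset.abs_sum_le_sum_abs _ _).trans ?_
      refine (Finset.sum_le_sum fun w _ => h w).trans ?_
      rw [Finset.sum_const, nsmul_eq_mul]
      refine mul_le_mul_of_nonneg_right ?_ hR
      rw [Finset.card_univ]
      exact_mod_cast Fintype.card_subtype_le _
    · exact (h ⟨w, hw⟩).trans (le_mul_of_one_le_left hR hcard)
  refine le_trans ?_ (key w)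
  rw [abs_mul]
  refine le_mul_of_one_le_left (abs_nonneg _) ?_
  rw [abs_of_pos (by linarith [hm w])]
  exact hm w

end H72

open H72

/-- the support of the weight -/
theorem st_WSP' : ST_WSP := by
  intro F _ _ M hM
  obtain ⟨R, hR, hlog⟩ := logMap_bound (F := F) M
  set R' : ℝ := Fintype.card (InfinitePlace F) * R with hR'
  refine ⟨Real.exp (-(2 * R')), Real.exp_pos _, fun x hwt hx w => ?_⟩
  have hb := log_bound hR hx (hlog x (fun i => uco_le hM hwt i))
  set L := Real.log (mixedEmbedding.norm x) * (Module.finrank ℚ F : ℝ)⁻¹ with hL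
  have hpos : ∀ w : InfinitePlace F, 0 < normAtPlace w x := fun w =>
    lt_of_le_of_ne (normAtPlace_nonneg w x) (mixedEmbedding.norm_ne_zero_iff.mp hx w).symm
  have h1 : ‖x‖ ≤ Real.exp (L + R') := by
    rw [norm_eq_sup'_normAtPlace]
    refine Finset.sup'_le _ _ fun w _ => ?_
    rw [← Real.log_le_iff_le_exp (hpos w)]
    linarith [(abs_le.mp (hb w)).2]
  have h2 : Real.exp (L - R') ≤ normAtPlace w x := by
    rw [← Real.le_log_iff_exp_le (hpos w)]
    linarith [(abs_le.mp (hb w)).1]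
  calc Real.exp (-(2 * R')) * ‖x‖ ≤ Real.exp (-(2 * R')) * Real.exp (L + R') := by gcongr
    _ = Real.exp (L - R') := by rw [← Real.exp_add]; congr 1; ring
    _ ≤ _ := h2

/-- WSP in the form of the table -/
theorem st_WSP (_ : ST_TEN) : ST_WSP := st_WSP'

theorem H72.decay (d : ℕ) (e t n s A W : ℝ) (he0 : 0 < e) (he1 : e ≤ 1) (ht : 0 ≤ t)
    (hs1 : 1 ≤ s) (hs2 : s ≤ 2) (hA1 : A ≤ 1) (hW0 : 0 ≤ W) (hW1 : W ≤ 1)
    (hn : (e * (1 + t)) ^ d ≤ n) :
    A * W * n ^ (-s) ≤ e ^ (-(2 * d : ℝ)) * (1 + t) ^ (-((d : ℝ) * s)) := by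
  have hx1 : 0 < 1 + t := by positivity
  have h5 : 0 < e * (1 + t) := by positivity
  have h50 : 0 < (e * (1 + t)) ^ d := by positivity
  have hn0 : 0 < n := lt_of_lt_of_le h50 hn
  have h6 : e ^ (-((d : ℝ) * s)) ≤ e ^ (-(2 * d : ℝ)) := by
    refine Real.rpow_le_rpow_of_exponent_ge he0 he1 ?_
    have : (0 : ℝ) ≤ d := by positivity
    nlinarith
  have h7 : 0 ≤ (1 + t) ^ (-((d : ℝ) * s)) := Real.rpow_nonneg hx1.le _
  have h8 : n ^ (-s) ≤ ((e * (1 + t)) ^ d) ^ (-s) :=
    Real.rpow_le_rpow_of_nonpos h50 hn (by linarith)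
  have h9 : ((e * (1 + t)) ^ d) ^ (-s) = e ^ (-((d : ℝ) * s)) * (1 + t) ^ (-((d : ℝ) * s)) := by
    rw [← Real.rpow_natCast, ← Real.rpow_mul h5.le, ← Real.mul_rpow he0.le hx1.le]
    congr 1; ring
  have h10 : 0 ≤ n ^ (-s) := Real.rpow_nonneg hn0.le _
  have h11 : A * W ≤ 1 := mul_le_one₀ hA1 hW0 hW1
  have h12 : A * W * n ^ (-s) ≤ n ^ (-s) := mul_le_of_le_one_left h10 h11
  rw [h9] at h8
  exact h12.trans (h8.trans (mul_le_mul_of_nonneg_right h6 h7))

/-- decay of `gs` -/
theorem st_GBD' : ST_GBD := by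
  intro F _ _ M hM
  obtain ⟨c, hc, hw⟩ := st_WSP' F M hM
  obtain ⟨e, he⟩ : ∃ e : ℝ, e = min c 1 / 2 := ⟨_, rfl⟩
  have he0 : 0 < e := by rw [he]; positivity
  have he1 : e ≤ 1 := by rw [he]; linarith [min_le_right c 1]
  have hec : 2 * e ≤ c := by rw [he]; linarith [min_le_left c 1]
  refine ⟨e ^ (-(2 * Module.finrank ℚ F : ℝ)), fun s hs1 hs2 x => ?_⟩
  have hnn : 0 ≤ mixedEmbedding.norm x := mixedEmbedding.norm_nonneg x
  have hp1 : 0 ≤ max 0 (min 1 (‖x‖ - 1)) := le_max_left _ _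
  have hp2 : max 0 (min 1 (‖x‖ - 1)) ≤ 1 := max_le zero_le_one (min_le_left _ _)
  have hwt := wt_nonneg M x
  have hwt1 := wt_le_one M x
  have hpow : 0 ≤ mixedEmbedding.norm x ^ (-s) := Real.rpow_nonneg hnn _
  have hx0 : 0 ≤ ‖x‖ := norm_nonneg x
  have hrhs : 0 ≤ e ^ (-(2 * Module.finrank ℚ F : ℝ)) *
      (1 + ‖x‖) ^ (-(Module.finrank ℚ F * s)) :=
    mul_nonneg (Real.rpow_nonneg he0.le _) (Real.rpow_nonneg (by linarith) _)
  refine ⟨mul_nonneg (mul_nonneg hp1 hwt) hpow, ?_⟩
  unfold gs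
  by_cases h1 : ‖x‖ ≤ 1
  · rw [max_eq_left ((min_le_right _ _).trans (by linarith)), zero_mul, zero_mul]
    exact hrhs
  push Not at h1
  by_cases h2 : wt M x = 0
  · rw [h2, mul_zero, zero_mul]
    exact hrhs
  by_cases h3 : mixedEmbedding.norm x = 0
  · rw [h3, Real.zero_rpow (by linarith), mul_zero]
    exact hrhs
  refine H72.decay _ e ‖x‖ _ s _ _ he0 he1 hx0 hs1 hs2 hp2 hwt hwt1 ?_
  rw [mixedEmbedding.norm_apply, ← sum_mult_eq, ← Finset.prod_pow_eq_pow_sum]
  refine Finset.prod_le_prod (fun w _ => pow_nonneg (mul_nonneg he0.le (by linarith)) _)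
    fun w _ => ?_
  refine pow_le_pow_left₀ (mul_nonneg he0.le (by linarith)) ?_ _
  refine le_trans ?_ (hw x h2 h3 w)
  have h4 : e * (1 + ‖x‖) ≤ e * (2 * ‖x‖) := mul_le_mul_of_nonneg_left (by linarith) he0.le
  have h5 : 2 * e * ‖x‖ ≤ c * ‖x‖ := mul_le_mul_of_nonneg_right hec hx0
  linarith

/-- GBD in the form of the table -/
theorem st_GBD (_ : ST_WSP) : ST_GBD := st_GBD'

end REC
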