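import Pool.Agent.Helper85.REC.Stmts11

/-!
# REC.ST_AVL: lifting homomorphisms can be tested on a subgroup of finite index   [helper72]
-/

set_option autoImplicit false

namespace Pool.Agent.Helper72.REC.Avl

open _root_.REC MU

theorem st_AVL : ST_AVL := by
  intro G H _ _ φ n m l _ r s hl hH u hu
  set N : Subgroup G := φ.range with hN
  have hi : N.index ≠ 0 := by
    intro h0
    rw [h0] at hl
    exact hl (dvd_zero l)
  obtain ⟨x₀, hx₀, hx₁⟩ := hH u (fun a => hu (φ a))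
  have : Fintype (G ⧸ N) := Subgroup.fintypeOfIndexNeZero hi
  -- the function on the cosets
  let f : G → Matrix (Fin m) (Fin n) ℤ_[l] := fun g =>
    (s g : Matrix (Fin m) (Fin m) ℤ_[l]) * x₀ * (r g⁻¹ : Matrix (Fin n) (Fin n) ℤ_[l])
  have hinv : ∀ g : G, ∀ y ∈ N, f (g * y) = f g := by
    rintro g y ⟨a, rfl⟩
    have h1 : (s (φ a) : Matrix (Fin m) (Fin m) ℤ_[l]) * x₀ *
        (r (φ a)⁻¹ : Matrix (Fin n) (Fin n) ℤ_[l]) = x₀ := by
      rw [← hx₁, Matrix.mul_assoc, ← Units.val_mul, ← map_mul, mul_inv_cancel, map_one,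
        Units.val_one, Matrix.mul_one]
    change (s (g * φ a) : Matrix (Fin m) (Fin m) ℤ_[l]) * x₀ *
      (r (g * φ a)⁻¹ : Matrix (Fin n) (Fin n) ℤ_[l]) = _
    rw [mul_inv_rev, map_mul, map_mul, Units.val_mul, Units.val_mul]
    calc (s g : Matrix (Fin m) (Fin m) ℤ_[l]) * (s (φ a) : Matrix (Fin m) (Fin m) ℤ_[l]) * x₀ *
          ((r (φ a)⁻¹ : Matrix (Fin n) (Fin n) ℤ_[l]) * (r g⁻¹ : Matrix (Fin n) (Fin n) ℤ_[l]))
        = (s g : Matrix (Fin m) (Fin m) ℤ_[l]) * ((s (φ a) : Matrix (Fin m) (Fin m) ℤ_[l]) * x₀ *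
          (r (φ a)⁻¹ : Matrix (Fin n) (Fin n) ℤ_[l])) *
            (r g⁻¹ : Matrix (Fin n) (Fin n) ℤ_[l]) := by simp only [Matrix.mul_assoc]
      _ = f g := by rw [h1]
  let F : G ⧸ N → Matrix (Fin m) (Fin n) ℤ_[l] := Quotient.lift f (by
    intro a b hab
    have h1 : a⁻¹ * b ∈ N := QuotientGroup.leftRel_apply.mp hab
    have h2 := hinv a _ h1
    rw [mul_inv_cancel_left] at h2
    exact h2.symm)
  have hF : ∀ g : G, F (g : G ⧸ N) = f g := fun g => rfl
  have hsm : ∀ (g : G) (q : G ⧸ N), (s g : Matrix (Fin m) (Fin m) ℤ_[l]) * F q =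
      F (g • q) * (r g : Matrix (Fin n) (Fin n) ℤ_[l]) := by
    intro g q
    induction q using QuotientGroup.induction_on with
    | H a =>
      have h1 : g • (a : G ⧸ N) = ((g * a : G) : G ⧸ N) := rfl
      rw [h1, hF, hF]
      change (s g : Matrix (Fin m) (Fin m) ℤ_[l]) * ((s a : Matrix (Fin m) (Fin m) ℤ_[l]) * x₀ *
        (r a⁻¹ : Matrix (Fin n) (Fin n) ℤ_[l])) =
        (s (g * a) : Matrix (Fin m) (Fin m) ℤ_[l]) * x₀ *
        (r (g * a)⁻¹ : Matrix (Fin n) (Fin n) ℤ_[l]) * (r g : Matrix (Fin n) (Fin n) ℤ_[l])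
      have e : (r (g * a)⁻¹ : Matrix (Fin n) (Fin n) ℤ_[l]) *
          (r g : Matrix (Fin n) (Fin n) ℤ_[l]) = (r a⁻¹ : Matrix (Fin n) (Fin n) ℤ_[l]) := by
        rw [← Units.val_mul, ← map_mul, mul_inv_rev, inv_mul_cancel_right]
      rw [Matrix.mul_assoc _ (r (g * a)⁻¹ : Matrix (Fin n) (Fin n) ℤ_[l]), e, map_mul s,
        Units.val_mul]
      simp only [Matrix.mul_assoc]
  have hsum : ∀ g : G, (s g : Matrix (Fin m) (Fin m) ℤ_[l]) * (∑ q, F q) =
      (∑ q, F q) * (r g : Matrix (Fin n) (Fin n) ℤ_[l]) := by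
    intro g
    rw [Matrix.mul_sum, Matrix.sum_mul]
    simp_rw [hsm]
    exact Equiv.sum_comp (MulAction.toPerm g) fun q =>
      F q * (r g : Matrix (Fin n) (Fin n) ℤ_[l])
  set π : ℤ_[l] →+* ZMod l := PadicInt.toZMod (p := l) with hπ
  have hred : ∀ q, (F q).map π = u := by
    intro q
    induction q using QuotientGroup.induction_on with
    | H a =>
      rw [hF]
      change ((s a : Matrix (Fin m) (Fin m) ℤ_[l]) * x₀ *
        (r a⁻¹ : Matrix (Fin n) (Fin n) ℤ_[l])).map π = u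
      rw [Matrix.map_mul, Matrix.map_mul, hx₀]
      have h1 : (s a : Matrix (Fin m) (Fin m) ℤ_[l]).map π * u = u * res r a := (hu a).symm
      rw [h1]
      have h2 : (r a⁻¹ : Matrix (Fin n) (Fin n) ℤ_[l]).map π = res r a⁻¹ := rfl
      rw [h2, Matrix.mul_assoc, ← map_mul, mul_inv_cancel, map_one, Matrix.mul_one]
  obtain ⟨d, hd⟩ : ∃ d, d = N.index := ⟨_, rfl⟩
  have hcard : Fintype.card (G ⧸ N) = d := by
    rw [hd, Subgroup.index_eq_card, Nat.card_eq_fintype_card]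
  have hdu : IsUnit (d : ℤ_[l]) := by
    rw [PadicInt.isUnit_iff, PadicInt.norm_natCast_eq_one_iff]
    have hp : l.Prime := Fact.out
    rw [hp.coprime_iff_not_dvd, hd]
    exact hl
  obtain ⟨d', hd'⟩ := hdu.exists_left_inv
  refine ⟨d' • ∑ q, F q, ?_, fun g => ?_⟩
  · have h1 : (d' • ∑ q, F q).map π = π d' • ∑ q, (F q).map π := by
      ext i j
      simp [Matrix.sum_apply]
    rw [h1]
    simp_rw [hred]
    rw [Finset.sum_const, Finset.card_univ, hcard, ← Nat.cast_smul_eq_nsmul (ZMod l), smul_smul]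
    have h2 := congrArg π hd'
    rw [map_mul, map_natCast, map_one] at h2
    rw [h2, one_smul]
  · rw [Matrix.smul_mul, Matrix.mul_smul, hsum]

end Pool.Agent.Helper72.REC.Avl
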