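import Pool.Agent.Helper72.REC.CMP
import Pool.Agent.Helper43.MU.Sub

/-!
# REC.ST_CMA: commutative motives of rank two and atoms   [helper72]
-/

set_option autoImplicit false

open scoped Classical
open NumberField Polynomial

namespace Pool.Agent.Helper72.REC.C2

open _root_.REC MU
open Pool.Agent.Helper60.REC8 Pool.Agent.Helper32.REC

section rep

variable {G K : Type} [Group G] [Field K] {n m : ℕ}

/-- an irreducible quotient of a commutative representation is commutative -/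
theorem comm_quot (r : G →* Matrix (Fin m) (Fin m) K) (r' : G →* Matrix (Fin n) (Fin n) K)
    (hc : ∀ g g', r g * r g' = r g' * r g) (hr : IsIrr r') (u : Matrix (Fin n) (Fin m) K)
    (hu0 : u ≠ 0) (hu : ∀ g, u * r g = r' g * u) (g g' : G) : r' g * r' g' = r' g' * r' g := by
  have hst : ∀ g, ∀ v ∈ LinearMap.range u.mulVecLin, (r' g).mulVec v ∈
      LinearMap.range u.mulVecLin := by
    rintro g _ ⟨x, rfl⟩
    refine ⟨(r g).mulVec x, ?_⟩
    rw [Matrix.mulVecLin_apply, Matrix.mulVecLin_apply, Matrix.mulVec_mulVec,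
      Matrix.mulVec_mulVec, hu]
  have hs : LinearMap.range u.mulVecLin = ⊤ := by
    rcases irr_stable hr _ hst with h | h
    · exfalso
      apply hu0
      rw [LinearMap.range_eq_bot] at h
      ext i j
      have h1 := congrArg (fun f : (Fin m → K) →ₗ[K] (Fin n → K) => f (Pi.single j 1) i) h
      simpa using h1
    · exact h
  have hs' : ∀ v, ∃ x, u.mulVec x = v := by
    intro v
    have : v ∈ LinearMap.range u.mulVecLin := by
      rw [hs]
      trivial
    exact this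
  apply Matrix.toLin'.injective
  apply LinearMap.ext
  intro v
  obtain ⟨x, rfl⟩ := hs' v
  rw [Matrix.toLin'_apply, Matrix.toLin'_apply, Matrix.mulVec_mulVec, Matrix.mulVec_mulVec]
  have key : ∀ a b, r' a * r' b * u = u * (r a * r b) := by
    intro a b
    rw [Matrix.mul_assoc, ← hu, ← Matrix.mul_assoc, ← hu, Matrix.mul_assoc]
  rw [key, key, hc]

/-- an irreducible subrepresentation of a commutative representation is commutative -/
theorem comm_sub (r : G →* Matrix (Fin m) (Fin m) K) (r' : G →* Matrix (Fin n) (Fin n) K)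
    (hc : ∀ g g', r g * r g' = r g' * r g) (hr : IsIrr r') (u : Matrix (Fin m) (Fin n) K)
    (hu0 : u ≠ 0) (hu : ∀ g, u * r' g = r g * u) (g g' : G) : r' g * r' g' = r' g' * r' g := by
  have hst : ∀ g, ∀ v ∈ LinearMap.ker u.mulVecLin, (r' g).mulVec v ∈
      LinearMap.ker u.mulVecLin := by
    intro g v hv
    rw [LinearMap.mem_ker, Matrix.mulVecLin_apply] at hv ⊢
    rw [Matrix.mulVec_mulVec, hu, ← Matrix.mulVec_mulVec, hv, Matrix.mulVec_zero]
  have hs : LinearMap.ker u.mulVecLin = ⊥ := by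
    rcases irr_stable hr _ hst with h | h
    · exact h
    · exfalso
      apply hu0
      rw [LinearMap.ker_eq_top] at h
      ext i j
      have h1 := congrArg (fun f : (Fin n → K) →ₗ[K] (Fin m → K) => f (Pi.single j 1) i) h
      simpa using h1
  apply Matrix.toLin'.injective
  apply LinearMap.ext
  intro v
  rw [Matrix.toLin'_apply, Matrix.toLin'_apply]
  apply LinearMap.ker_eq_bot.mp hs
  rw [Matrix.mulVecLin_apply, Matrix.mulVecLin_apply, Matrix.mulVec_mulVec, Matrix.mulVec_mulVec]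
  have key : ∀ a b, u * (r' a * r' b) = r a * r b * u := by
    intro a b
    rw [← Matrix.mul_assoc, hu, Matrix.mul_assoc, hu, ← Matrix.mul_assoc]
  rw [key, key, hc]

/-- a commutative irreducible representation with scalar endomorphisms has rank at most one -/
theorem rank_one (r' : G →* Matrix (Fin n) (Fin n) K) (hr : IsIrr r')
    (hs : ∀ u : Matrix (Fin n) (Fin n) K, (∀ g, u * r' g = r' g * u) →
      ∃ a : K, u = a • (1 : Matrix (Fin n) (Fin n) K))
    (hc : ∀ g g', r' g * r' g' = r' g' * r' g) (hn : n ≠ 0) : n = 1 := by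
  have h1 : ∀ g, ∃ a : K, r' g = a • (1 : Matrix (Fin n) (Fin n) K) := fun g =>
    hs _ fun g' => hc g g'
  choose a ha using h1
  obtain ⟨B, hB⟩ : ∃ B : Matrix (Fin n) (Fin 1) K,
      B = Matrix.of fun i _ => if i = ⟨0, Nat.pos_of_ne_zero hn⟩ then 1 else 0 := ⟨_, rfl⟩
  have h2 := hr 1 B (fun g => a g • (1 : Matrix (Fin 1) (Fin 1) K)) ⟨⟨B.transpose, ?_⟩, ?_⟩
  · omega
  · ext i j
    have hi : i = 0 := Subsingleton.elim _ _
    have hj : j = 0 := Subsingleton.elim _ _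
    subst hi hj
    rw [hB, Matrix.mul_apply]
    simp
  · intro g
    rw [ha, Matrix.smul_mul, Matrix.mul_smul, Matrix.one_mul, Matrix.mul_one]

theorem row_root (s : Matrix (Fin 2) (Fin 2) K) (x : Matrix (Fin 1) (Fin 1) K)
    (u : Matrix (Fin 1) (Fin 2) K) (hu0 : u ≠ 0) (hu : u * s = x * u) :
    x 0 0 ^ 2 - s.trace * x 0 0 + s.det = 0 := by
  have hx : x * u = x 0 0 • u := by
    ext i j
    have hi : i = 0 := Subsingleton.elim _ _
    subst hi
    simp [Matrix.mul_apply]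
  have h1 : u * (s * s) = (x 0 0 ^ 2) • u := by
    rw [← Matrix.mul_assoc, hu, hx, Matrix.smul_mul, hu, hx, smul_smul, pow_two]
  rw [ch2, Matrix.mul_sub, Matrix.mul_smul, Matrix.mul_smul, Matrix.mul_one, hu, hx, smul_smul,
    ← sub_smul] at h1
  have h2 : (x 0 0 ^ 2 - s.trace * x 0 0 + s.det) • u = 0 := by
    have h3 : x 0 0 ^ 2 - s.trace * x 0 0 + s.det =
        x 0 0 ^ 2 - (s.trace * x 0 0 - s.det) := by ring
    rw [h3, sub_smul, h1, sub_self]
  exact (smul_eq_zero.mp h2).resolve_right hu0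

theorem col_root (s : Matrix (Fin 2) (Fin 2) K) (x : Matrix (Fin 1) (Fin 1) K)
    (u : Matrix (Fin 2) (Fin 1) K) (hu0 : u ≠ 0) (hu : u * x = s * u) :
    x 0 0 ^ 2 - s.trace * x 0 0 + s.det = 0 := by
  have hx : u * x = x 0 0 • u := by
    ext i j
    have hj : j = 0 := Subsingleton.elim _ _
    subst hj
    simp [Matrix.mul_apply, mul_comm]
  have h1 : s * s * u = (x 0 0 ^ 2) • u := by
    rw [Matrix.mul_assoc, ← hu, hx, Matrix.mul_smul, ← hu, hx, smul_smul, pow_two]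
  rw [ch2, Matrix.sub_mul, Matrix.smul_mul, Matrix.smul_mul, Matrix.one_mul, ← hu, hx, smul_smul,
    ← sub_smul] at h1
  have h2 : (x 0 0 ^ 2 - s.trace * x 0 0 + s.det) • u = 0 := by
    have h3 : x 0 0 ^ 2 - s.trace * x 0 0 + s.det =
        x 0 0 ^ 2 - (s.trace * x 0 0 - s.det) := by ring
    rw [h3, sub_smul, h1, sub_self]
  exact (smul_eq_zero.mp h2).resolve_right hu0

end rep

/-- pure quadratic polynomials with an integral root -/
theorem arith1 (t d a : ℤ) (q : ℝ)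
    (hp : ∀ z : ℂ, z ^ 2 - t * z + d = 0 → ‖z‖ ^ 2 = q)
    (hR : a ^ 2 - t * a + d = 0) : t ^ 2 * (t ^ 2 - 4 * d) = 0 := by
  have hR' : (a : ℝ) ^ 2 - t * a + d = 0 := by exact_mod_cast hR
  have k1 := hp ((a : ℝ) : ℂ) (by exact_mod_cast hR')
  have k2 := hp (((t : ℝ) - a : ℝ) : ℂ) (by
    have h1 : ((t : ℝ) - a) ^ 2 - t * (t - a) + d = 0 := by linear_combination hR'
    have := congrArg (fun x : ℝ => (x : ℂ)) h1
    push_cast at this ⊢
    exact this)
  rw [Complex.norm_real, Real.norm_eq_abs, sq_abs] at k1 k2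
  have k3 : (t : ℝ) * (t - 2 * a) = 0 := by linear_combination k2 - k1
  have k4 : (t : ℝ) ^ 2 * (t ^ 2 - 4 * d) = 0 := by
    rcases mul_eq_zero.mp k3 with h5 | h5
    · rw [h5]
      ring
    · have h6 : (t : ℝ) ^ 2 - 4 * d = 0 := by
        have : (t : ℝ) = 2 * a := by linear_combination h5
        rw [this] at hR' ⊢
        linear_combination -4 * hR'
      rw [h6]
      ring
  exact_mod_cast k4

section mot

variable {F : Type} [Field F] [NumberField F] {S : Finset ℕ} {w : ℕ}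

/-- integral values at the Frobenius powers in rank one -/
theorem frob1 {h : Fin 1 → ℕ} (M : Mot F S 1 w h) (p : ℕ) (hp : p.Prime) (hpS : p ∉ S)
    (𝔓 : Ideal (Zb F)) (hov : Over p 𝔓) (k : ℕ) (hk : 1 ≤ k) (σ : Gal F)
    (hσ : CongPow 𝔓 (p ^ k) σ) :
    ∃ a : ℤ, ∀ (l : ℕ) [Fact l.Prime], l ≠ p →
        (M.ρ l σ⁻¹ : Matrix (Fin 1) (Fin 1) ℤ_[l]) 0 0 = a := by
  obtain ⟨P, hP1, hP2⟩ := M.pure p hp hpS 𝔓 hov k σ hk hσ
  refine ⟨-P.coeff 0, fun l _ hl => ?_⟩
  have h1 := hP2 l hl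
  obtain ⟨A, hA⟩ : ∃ A : Matrix (Fin 1) (Fin 1) ℤ_[l],
    A = (M.ρ l σ⁻¹ : Matrix (Fin 1) (Fin 1) ℤ_[l]) := ⟨_, rfl⟩
  rw [← hA] at h1 ⊢
  have h2 := Matrix.det_eq_sign_charpoly_coeff A
  rw [h1, coeff_map, Matrix.det_fin_one, Fintype.card_fin] at h2
  rw [h2]
  simp

/-- in rank one the residual roots occur for finitely many `l` only -/
theorem root_fin (hFRB : ST_FRB) {h : Fin 2 → ℕ} {h' : Fin 1 → ℕ} (M : Mot F S 2 w h)
    (M' : Mot F S 1 w h')
    (hinf : ∀ c : ℕ, ∃ (l : ℕ) (_ : Fact l.Prime), c < l ∧ ∀ g : Gal F,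
      (res (M'.ρ l) g) 0 0 ^ 2 - (res (M.ρ l) g).trace * (res (M'.ρ l) g) 0 0 +
        (res (M.ρ l) g).det = 0) (g : Gal F) :
    dsc ((M.ρ 2 g : Matrix (Fin 2) (Fin 2) ℤ_[2]) ^ 2) = 0 := by
  have hfr : ∀ (p : ℕ) (𝔓 : Ideal (Zb F)) (k : ℕ) (σ : Gal F), p.Prime → p ∉ insert 2 S →
      Over p 𝔓 → 1 ≤ k → CongPow 𝔓 (p ^ k) σ →
      σ⁻¹ ∈ {g : Gal F | (M.ρ 2 g : Matrix (Fin 2) (Fin 2) ℤ_[2]).trace ^ 2 *
          dsc (M.ρ 2 g : Matrix (Fin 2) (Fin 2) ℤ_[2]) = 0} := by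
    intro p 𝔓 k σ hp hpS hov hk hσ
    rw [Finset.mem_insert, not_or] at hpS
    obtain ⟨t, d, hpu, htd⟩ := frob2 M p hp hpS.2 𝔓 hov k hk σ hσ
    obtain ⟨a, ha⟩ := frob1 M' p hp hpS.2 𝔓 hov k hk σ hσ
    have hR : a ^ 2 - t * a + d = 0 := by
      apply int_zero
      intro c
      obtain ⟨l, hl, hcl, hg⟩ := hinf (max c p)
      refine ⟨l, (le_max_left _ _).trans_lt hcl, ?_⟩
      have hlp : l ≠ p := by
        have := (le_max_right c p).trans_lt hcl
        omega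
      have h1 := hg σ⁻¹
      rw [res_tr, res_det, (htd l hlp).1, (htd l hlp).2, map_intCast, map_intCast] at h1
      have h2 : (res (M'.ρ l) σ⁻¹) 0 0 = (a : ZMod l) := by
        rw [res_eq, Matrix.map_apply, ha l hlp, map_intCast]
      rw [h2] at h1
      rw [← ZMod.intCast_zmod_eq_zero_iff_dvd]
      push_cast
      exact h1
    have h1 := arith1 t d a _ hpu hR
    have : Fact (Nat.Prime 2) := ⟨Nat.prime_two⟩
    rw [Set.mem_ofPred_eq, dsc_eq, (htd 2 (Ne.symm hpS.1)).1, (htd 2 (Ne.symm hpS.1)).2]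
    exact_mod_cast h1
  have hall := dens hFRB (insert 2 S) _ (isClosed_eq
    (((cont_tr M 2).pow 2).mul (cont_dsc M 2)) continuous_const) hfr g
  rw [pow_two, dsc_sq]
  exact hall

end mot

theorem st_CMA (hFRB : ST_FRB) : ST_CMA := by
  intro F _ _ S _ n n' w h h' M M' hM hM'
  obtain ⟨rfl, hss, hcomm, hreg⟩ := hM
  obtain ⟨hirr, c₀, hc₀⟩ := hM'
  have hres : ∀ (l : ℕ) [Fact l.Prime] (g g' : Gal F),
      res (M.ρ l) g * res (M.ρ l) g' = res (M.ρ l) g' * res (M.ρ l) g := by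
    intro l _ g g'
    rw [← map_mul]
    have : M.ρ l (g * g') = M.ρ l (g' * g) := by rw [map_mul, map_mul, hcomm]
    rw [res_eq, this, ← res_eq, map_mul]
  have main : ∃ c : ℕ, ∀ (l : ℕ) [Fact l.Prime], c < l →
      (∀ u : Matrix (Fin n') (Fin 2) (ZMod l),
        (∀ g, u * res (M.ρ l) g = res (M'.ρ l) g * u) → u = 0) ∧
      ∀ u : Matrix (Fin 2) (Fin n') (ZMod l),
        (∀ g, u * res (M'.ρ l) g = res (M.ρ l) g * u) → u = 0 := by
    by_contra hcon
    have hinf : ∀ c : ℕ, ∃ (l : ℕ) (_ : Fact l.Prime), c < l ∧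
        ((∃ u : Matrix (Fin n') (Fin 2) (ZMod l), u ≠ 0 ∧
          ∀ g, u * res (M.ρ l) g = res (M'.ρ l) g * u) ∨
        ∃ u : Matrix (Fin 2) (Fin n') (ZMod l), u ≠ 0 ∧
          ∀ g, u * res (M'.ρ l) g = res (M.ρ l) g * u) := by
      intro c
      by_contra h1
      apply hcon
      refine ⟨c, fun l hl hcl => ⟨fun u hu => ?_, fun u hu => ?_⟩⟩
      · by_contra h0
        exact h1 ⟨l, hl, hcl, Or.inl ⟨u, h0, hu⟩⟩
      · by_contra h0
        exact h1 ⟨l, hl, hcl, Or.inr ⟨u, h0, hu⟩⟩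
    have hn1 : n' = 1 := by
      obtain ⟨l, hl, hcl, hu⟩ := hinf c₀
      obtain ⟨hir, hsc⟩ := hc₀ l hcl
      rcases hu with ⟨u, hu0, hu⟩ | ⟨u, hu0, hu⟩
      · refine rank_one _ hir hsc (comm_quot _ _ (hres l) hir u hu0 hu) ?_
        rintro rfl
        exact hu0 (Subsingleton.elim _ _)
      · refine rank_one _ hir hsc (comm_sub _ _ (hres l) hir u hu0 hu) ?_
        rintro rfl
        exact hu0 (Subsingleton.elim _ _)
    subst hn1
    obtain ⟨g, hg⟩ := hreg 2 two_pos 2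
    apply hg
    have h2 := root_fin hFRB M M' (fun c => by
      obtain ⟨l, hl, hcl, hu⟩ := hinf c
      refine ⟨l, hl, hcl, fun g => ?_⟩
      rcases hu with ⟨u, hu0, hu⟩ | ⟨u, hu0, hu⟩
      · exact row_root _ _ u hu0 (hu g)
      · exact col_root _ _ u hu0 (hu g)) g
    rw [dsc_eq, sub_eq_zero] at h2
    exact h2
  obtain ⟨c, hc⟩ := main
  constructor
  · refine ⟨c, fun l _ hl u hu => ⟨0, ?_, fun g => by rw [Matrix.zero_mul, Matrix.mul_zero]⟩⟩
    rw [(hc l hl).1 u hu]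
    ext i j
    simp
  · refine ⟨c, fun l _ hl u hu => ⟨0, ?_, fun g => by rw [Matrix.zero_mul, Matrix.mul_zero]⟩⟩
    rw [(hc l hl).2 u hu]
    ext i j
    simp

end Pool.Agent.Helper72.REC.C2
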