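import Pool.Agent.Helper72.REC.PPB
import Pool.Agent.Helper53.REC.CLF
import Pool.Agent.Helper60.REC.TRP
import Pool.Agent.Helper8.REC.ATP
import Pool.Agent.Helper85.MU.FinalA
import Pool.Agent.Helper3.MV.Final

/-!
# REC.ST_UNA, REC.ST_SEA: maximally unipotent motives and the motives of `MU.sep_regular` are
absolutely irreducible, and noncommutative on open subgroups   [helper72]
-/

set_option autoImplicit false

open Polynomial

namespace Pool.Agent.Helper72.REC.Una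

open _root_.REC MU

/-- a nilpotent `s h₀ - 1` which commutes with a completely reducible `s` is zero -/
theorem ss_nil {H K : Type} [Group H] [Field K] {n : ℕ} (s : H →* Matrix (Fin n) (Fin n) K)
    (hs : IsSS s) (h₀ : H) (hc : ∀ h, s h * s h₀ = s h₀ * s h) (k : ℕ)
    (hk : (s h₀ - 1) ^ (k + 1) = 0) : s h₀ - 1 = 0 := by
  set Y : Matrix (Fin n) (Fin n) K := s h₀ - 1 with hY
  have hYc : ∀ h, s h * Y = Y * s h := by
    intro h
    rw [hY, mul_sub, sub_mul, hc, mul_one, one_mul]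
  obtain ⟨m, B, A, hBA, hr⟩ : ∃ (m : ℕ) (B : Matrix (Fin n) (Fin m) K)
      (A : H → Matrix (Fin m) (Fin m) K), IsSub s B A ∧
      LinearMap.range B.mulVecLin = LinearMap.ker Y.mulVecLin :=
    ⟨_, isSub_of_stable s (LinearMap.ker Y.mulVecLin) (by
      intro h v hv
      rw [LinearMap.mem_ker, Matrix.mulVecLin_apply] at hv ⊢
      rw [Matrix.mulVec_mulVec, ← hYc, ← Matrix.mulVec_mulVec, hv, Matrix.mulVec_zero])⟩
  obtain ⟨C, hC1, hC2⟩ := hs _ B A hBA
  have hYB : Y * B = 0 := by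
    ext i j
    have h1 : B.mulVec (Pi.single j 1) ∈ LinearMap.ker Y.mulVecLin := by
      rw [← hr]
      exact ⟨_, rfl⟩
    rw [LinearMap.mem_ker, Matrix.mulVecLin_apply, Matrix.mulVec_mulVec,
      Matrix.mulVec_single_one] at h1
    exact congrFun h1 i
  have hA : A h₀ = 1 := by
    have h1 : s h₀ * B = B := by
      have h2 : s h₀ = Y + 1 := by rw [hY, sub_add_cancel]
      rw [h2, Matrix.add_mul, hYB, zero_add, Matrix.one_mul]
    have h2 := hBA.2 h₀
    rw [h1] at h2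
    have h3 := congrArg (fun z => C * z) h2
    simp only [← Matrix.mul_assoc, hC1, Matrix.one_mul] at h3
    exact h3.symm
  have hCY : C * Y = 0 := by
    have h1 := hC2 h₀
    rw [hA, Matrix.one_mul] at h1
    rw [hY, Matrix.mul_sub, h1, Matrix.mul_one, sub_self]
  have hstep : ∀ j, Y ^ (j + 1 + 1) = 0 → Y ^ (j + 1) = 0 := by
    intro j hj
    have h1 : ∀ v, (Y ^ (j + 1)).mulVec v = 0 := by
      intro v
      have h2 : (Y ^ (j + 1)).mulVec v ∈ LinearMap.ker Y.mulVecLin := by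
        rw [LinearMap.mem_ker, Matrix.mulVecLin_apply, Matrix.mulVec_mulVec, ← pow_succ', hj,
          Matrix.zero_mulVec]
      rw [← hr] at h2
      obtain ⟨z, hz⟩ := h2
      rw [Matrix.mulVecLin_apply] at hz
      have h3 : C.mulVec ((Y ^ (j + 1)).mulVec v) = 0 := by
        rw [Matrix.mulVec_mulVec, pow_succ', ← Matrix.mul_assoc, hCY, Matrix.zero_mul,
          Matrix.zero_mulVec]
      rw [← hz, Matrix.mulVec_mulVec, hC1, Matrix.one_mulVec] at h3
      rw [← hz, h3, Matrix.mulVec_zero]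
    ext i j'
    have h2 := congrFun (h1 (Pi.single j' 1)) i
    rw [Matrix.mulVec_single_one] at h2
    exact h2
  induction k with
  | zero => rwa [zero_add, pow_one] at hk
  | succ k ih => exact ih (hstep k hk)

/-- an element of an irreducible group of matrices, commutative on a normal subgroup of index
prime to the characteristic: unipotent elements are trivial -/
theorem core {G : Type} [Group G] {n l : ℕ} [Fact l.Prime]
    (r : G →* Matrix (Fin n) (Fin n) (ZMod l)) (hr : IsIrr r) (N : Subgroup G) (hN : N.Normal)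
    (hd : ¬ l ∣ N.index) (hc : ∀ g ∈ N, ∀ g' ∈ N, r g * r g' = r g' * r g) (τ : G) (k : ℕ)
    (hk : (r τ - 1) ^ k = 0) : r τ = 1 := by
  rcases Nat.eq_zero_or_pos n with hn | hn
  · subst hn
    exact Subsingleton.elim _ _
  have hne : Nonempty (Fin n) := ⟨⟨0, hn⟩⟩
  have hss : IsSS (r.comp N.subtype) := by
    refine st_CLF G N (ZMod l) N.subtype n r ?_ (atp_ss r hr)
    rw [N.range_subtype]
    exact hN
  have hmem : τ ^ N.index ∈ N := N.pow_index_mem τ
  have h1 : (r (τ ^ N.index) - 1) ^ (k + 1) = 0 := by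
    obtain ⟨z, hz, hz'⟩ : ∃ z, r τ ^ N.index - 1 = (r τ - 1) * z ∧ Commute (r τ - 1) z := by
      refine ⟨∑ i ∈ Finset.range N.index, r τ ^ i, ?_, ?_⟩
      · rw [mul_geom_sum]
      · apply Commute.sum_right
        intro i _
        exact ((Commute.refl (r τ)).sub_left (Commute.one_left _)).pow_right i
    rw [map_pow, hz, hz'.mul_pow, pow_succ, hk, zero_mul, zero_mul]
  have h2 := ss_nil (r.comp N.subtype) hss ⟨τ ^ N.index, hmem⟩
    (fun h => hc h.1 h.2 _ hmem) k h1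
  have h3 : r τ ^ N.index = 1 := by
    have h4 : r (τ ^ N.index) - 1 = 0 := h2
    rw [map_pow] at h4
    exact sub_eq_zero.1 h4
  have hp : l.Prime := Fact.out
  have h5 : r τ ^ l ^ k = 1 := by
    have h6 : (r τ - 1) ^ l ^ k = 0 := by
      have h7 : k ≤ l ^ k := (Nat.lt_pow_self hp.one_lt).le
      rw [← Nat.sub_add_cancel h7, pow_add, hk, mul_zero]
    rw [sub_pow_char_pow_of_commute l k (Commute.one_right (r τ)), one_pow] at h6
    exact sub_eq_zero.1 h6
  have h6 := pow_gcd_eq_one.2 ⟨h3, h5⟩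
  have h7 : Nat.gcd N.index (l ^ k) = 1 :=
    Nat.Coprime.pow_right k ((hp.coprime_iff_not_dvd.2 hd).symm)
  rwa [h7, pow_one] at h6

section mot

open NumberField

variable {F : Type} [Field F] [NumberField F] {S : Finset ℕ} {w n : ℕ} {h : Fin n → ℕ}

theorem nra (M : Mot F S n w h) (c₁ : ℕ)
    (hirr : ∀ (l : ℕ) [Fact l.Prime], c₁ < l → IsIrr (res (M.ρ l)))
    (hτ : ∀ (l : ℕ) [Fact l.Prime], c₁ < l → ∃ τ : Gal F, res (M.ρ l) τ ≠ 1 ∧
      ∃ k, (res (M.ρ l) τ - 1) ^ k = 0) : Nra M := by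
  intro H hH
  obtain ⟨N, hNn, hNo, hNH⟩ := Pool.Agent.Helper60.REC8.exists_openNormal F H hH H.one_mem
  have hd := Pool.Agent.Helper72.REC.Ppb.index_ne_zero hNo
  refine ⟨max c₁ N.index, fun l _ hl => ?_⟩
  by_contra hcon
  push Not at hcon
  obtain ⟨τ, h1, k, hk⟩ := hτ l ((le_max_left _ _).trans_lt hl)
  apply h1
  refine core (res (M.ρ l)) (hirr l ((le_max_left _ _).trans_lt hl)) N hNn ?_ ?_ τ k hk
  · intro hdv
    have h2 := Nat.le_of_dvd (Nat.pos_of_ne_zero hd) hdv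
    have h3 := (le_max_right c₁ N.index).trans_lt hl
    omega
  · intro g hg g' hg'
    exact hcon g (hNH hg) g' (hNH hg')

end mot

theorem st_UNA : ST_UNA := by
  intro F _ _ S hS n w h M hM
  rcases Nat.lt_or_ge 1 n with hn | hn
  swap
  · exact Or.inl hn
  right
  have hReg : M.Regular := by
    refine all_REG all_MIX F S hS n w h M ?_
    rcases hM with h4 | h4
    · exact Or.inl h4
    · exact Or.inr (Or.inl h4)
  obtain ⟨p₀, hp₀, 𝔓, h𝔓, c, hc⟩ : ∃ p₀ ∈ S, ∃ 𝔓 : Ideal (Zb F), Over p₀ 𝔓 ∧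
      ∃ c, M.MumAt p₀ c 𝔓 := by
    rcases hM with ⟨p₀, hp₀, ⟨c, hc⟩, -⟩ | ⟨p₀, hp₀, p₁, hp₁, -, ⟨c, ⟨𝔓, h𝔓, hc⟩, -⟩, -⟩
    · obtain ⟨⟨𝔓, h𝔓, -⟩, -⟩ := st_FRE F p₀ (hS p₀ hp₀)
      exact ⟨p₀, hp₀, 𝔓, h𝔓, c, fun l _ hl => hc l hl 𝔓 h𝔓⟩
    · exact ⟨p₀, hp₀, 𝔓, h𝔓, c, hc⟩
  obtain ⟨hR1, c₁, hR2⟩ := hReg
  have key : ∀ (l : ℕ) [Fact l.Prime], max c₁ (max c p₀) < l → IsIrr (res (M.ρ l)) ∧
      ∃ τ : Gal F, (res (M.ρ l) τ - 1) ^ (n - 1) ≠ 0 ∧ (res (M.ρ l) τ - 1) ^ n = 0 := by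
    intro l _ hl
    have h1 : c₁ < l := (le_max_left _ _).trans_lt hl
    have h2 : c < l := ((le_max_left _ _).trans (le_max_right _ _)).trans_lt hl
    have h3 : p₀ < l := ((le_max_right _ _).trans (le_max_right _ _)).trans_lt hl
    obtain ⟨τ, hτ, -, hτ2, -⟩ := hc l h3.ne'
    exact ⟨hR2 l h1, τ, hτ2 h2, bal_nil M l _ p₀ hp₀ h3.ne 𝔓 h𝔓 τ hτ⟩
  refine ⟨⟨fun l _ => (hR1 l).1, max c₁ (max c p₀), fun l _ hl => ⟨(key l hl).1, fun u hu => ?_⟩⟩,
    nra M (max c₁ (max c p₀)) (fun l _ hl => (key l hl).1) fun l _ hl => ?_⟩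
  · obtain ⟨hirr, τ, h1, h2⟩ := key l hl
    obtain ⟨v, a, hv, hav⟩ := end_line u _ h1 (by
      have h4 : Commute (res (M.ρ l) τ - 1) u := by
        change (res (M.ρ l) τ - 1) * u = u * (res (M.ρ l) τ - 1)
        rw [sub_mul, mul_sub, hu, one_mul, mul_one]
      exact h4.pow_left (n - 1)) (end_rank _ h2 (by omega))
    exact ⟨a, end_eig hirr u (fun g => (hu g).symm) v hv a hav⟩
  · obtain ⟨hirr, τ, h1, h2⟩ := key l hl
    refine ⟨τ, fun h3 => h1 ?_, n, h2⟩
    rw [h3, sub_self, zero_pow (by omega)]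

theorem count_dvd (μ : Multiset ℕ) (e : ℕ) (h1 : ∀ k, e ∣ (μ.map fun i => i - k).sum) (i : ℕ)
    (hi : 1 ≤ i) : e ∣ μ.count i := by
  have h3 := MT.ms_second μ i hi
  have h4 : (μ.count i : ℤ) = ((μ.map fun j => j - (i - 1)).sum : ℤ) -
      2 * ((μ.map fun j => j - i).sum : ℤ) + ((μ.map fun j => j - (i + 1)).sum : ℤ) := by
    have g1 := MT.ms_split μ (i - 1)
    have g2 := MT.ms_split μ i
    have g3 := MT.ms_split μ (i + 1)
    omega
  have h5 : (e : ℤ) ∣ (μ.count i : ℤ) := by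
    rw [h4]
    exact dvd_add (dvd_sub (Int.natCast_dvd_natCast.mpr (h1 _))
      (Dvd.dvd.mul_left (Int.natCast_dvd_natCast.mpr (h1 _)) 2))
      (Int.natCast_dvd_natCast.mpr (h1 _))
  exact Int.natCast_dvd_natCast.mp h5

/-- the commutant of an irreducible representation whose ranks are not all divisible -/
theorem scalar {G K : Type} [Group G] [Field K] {n : ℕ} (r : G →* Matrix (Fin n) (Fin n) K)
    (hr : IsIrr r) (hn : 0 < n)
    (hex : ∀ e : ℕ, 1 < e → e ∣ n → ∃ A : Matrix (Fin n) (Fin n) K,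
      (∀ u : Matrix (Fin n) (Fin n) K, (∀ g, r g * u = u * r g) → A * u = u * A) ∧ ¬ e ∣ A.rank)
    (u : Matrix (Fin n) (Fin n) K) (hu : ∀ g, r g * u = u * r g) :
    ∃ a : K, u = a • (1 : Matrix (Fin n) (Fin n) K) := by
  classical
  set ul : Module.End K (Fin n → K) := Matrix.toLinAlgEquiv' u with hul
  have hπ := end_minpoly hr hn u hu
  rw [← hul] at hπ
  have hint : IsIntegral K ul := Algebra.IsIntegral.isIntegral ul
  set e : ℕ := (minpoly K ul).natDegree with he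
  have : Nonempty (Fin n) := ⟨⟨0, hn⟩⟩
  have hnt : Nontrivial (Fin n → K) := inferInstance
  have hnt2 : Nontrivial (Module.End K (Fin n → K)) := inferInstance
  have hpos : 0 < e := minpoly.natDegree_pos hint
  have hrank : ∀ A : Matrix (Fin n) (Fin n) K, A * u = u * A → e ∣ A.rank := by
    intro A hA
    refine end_dvd_sub ul _ hπ (minpoly.aeval _ _) (LinearMap.range A.mulVecLin) ?_
    rintro _ ⟨v, rfl⟩
    refine ⟨u.mulVec v, ?_⟩
    change A.mulVec (u.mulVec v) = u.mulVec (A.mulVec v)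
    rw [Matrix.mulVec_mulVec, Matrix.mulVec_mulVec, hA]
  have hen : e ∣ n := by
    have h1 := hrank 1 (by rw [Matrix.one_mul, Matrix.mul_one])
    rwa [Matrix.rank_one, Fintype.card_fin] at h1
  have he1 : e = 1 := by
    by_contra hne
    obtain ⟨A, hA1, hA2⟩ := hex e (by omega) hen
    exact hA2 (hrank A (hA1 u hu))
  have hmon := minpoly.monic hint
  have h1 := minpoly.aeval K ul
  have h2 : minpoly K ul = Polynomial.X + C ((minpoly K ul).coeff 0) := hmon.eq_X_add_C he1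
  rw [h2, map_add, aeval_X, aeval_C] at h1
  refine ⟨-(minpoly K ul).coeff 0, ?_⟩
  have h3 : ul = algebraMap K _ (-(minpoly K ul).coeff 0) := by
    rw [map_neg]
    exact eq_neg_of_add_eq_zero_left h1
  apply (Matrix.toLinAlgEquiv' (R := K) (n := Fin n)).injective
  rw [← hul]
  conv_lhs => rw [h3]
  rw [Algebra.algebraMap_eq_smul_one, map_smul, map_one]

theorem st_SEA : ST_SEA := by
  intro F _ _ S hS n w h M hM
  rcases Nat.lt_or_ge 1 n with hn | hn
  swap
  · exact Or.inl hn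
  right
  obtain ⟨h1, c₁, h2⟩ := irr9 hS M hM
  obtain ⟨c, hc⟩ := hM
  have key : ∀ (l : ℕ) [Fact l.Prime], max c₁ c < l → ∀ e : ℕ, 1 < e → e ∣ n →
      ∃ τ : Gal F, (res (M.ρ l) τ - 1) ^ n = 0 ∧ ∃ k, ¬ e ∣ ((res (M.ρ l) τ - 1) ^ k).rank := by
    intro l _ hl e he hen
    have h4 : c < l := (le_max_right _ _).trans_lt hl
    obtain ⟨p, hpS, hpl, 𝔓, μ, h𝔓, ⟨τ, hτ, -, -, hJ⟩, i, hi, hex⟩ := (hc l).2 e (by omega) he hen
    refine ⟨τ, bal_nil M l _ p hpS hpl 𝔓 h𝔓 τ hτ, ?_⟩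
    by_contra hcon
    push Not at hcon
    apply hex
    apply count_dvd μ e _ i hi
    intro k
    rw [← (hJ h4).1 k]
    exact hcon k
  have hirr : ∀ (l : ℕ) [Fact l.Prime], max c₁ c < l → IsIrr (res (M.ρ l)) := fun l _ hl =>
    h2 l ((le_max_left _ _).trans_lt hl)
  refine ⟨⟨fun l _ => h1 l, max c₁ c, fun l _ hl => ⟨hirr l hl, fun u hu => ?_⟩⟩,
    nra M (max c₁ c) hirr fun l _ hl => ?_⟩
  · refine scalar (res (M.ρ l)) (hirr l hl) (by omega) (fun e he hen => ?_) u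
      fun g => (hu g).symm
    obtain ⟨τ, -, k, hk⟩ := key l hl e he hen
    refine ⟨_, fun v hv => ?_, hk⟩
    have h3 : Commute (res (M.ρ l) τ - 1) v := by
      have h4 : Commute (res (M.ρ l) τ) v := hv τ
      exact h4.sub_left (Commute.one_left v)
    exact h3.pow_left k
  · obtain ⟨τ, h3, k, hk⟩ := key l hl n hn (dvd_refl n)
    refine ⟨τ, fun h4 => hk ?_, n, h3⟩
    rw [h4, sub_self]
    rcases Nat.eq_zero_or_pos k with hk0 | hk0
    · rw [hk0, pow_zero, Matrix.rank_one, Fintype.card_fin]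
    · rw [zero_pow hk0.ne', Matrix.rank_zero]
      exact dvd_zero n

end Pool.Agent.Helper72.REC.Una
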